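import Pool.Agent.Q207.UL.Fus
import Pool.Agent.Q211.SY.Cnt
import Pool.Agent.Q211.SY.Fin
import Pool.Agent.W868.Hart

/-!
# The symmetric system, and how to verify statements in its models
-/

set_option autoImplicit false
set_option linter.unusedSectionVars false

namespace Pool.Agent.Q207.UL

open Pool.Agent.W868 Pool.Agent.W868.PName Pool.Agent.Q211.SY
open ZFSet (pair)
open Cardinal

/-! ### The principle -/

section principle

variable {P : Type} [Preorder P] [OrderTop P] {S : Sys P} {n : ℕ}
  {R : Set ZFSet.{0} → (Fin n → ZFSet.{0}) → Prop}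

theorem frc_of {h : UD R} {x : Fin n → PName P} (hx : ∀ i, S.HS (x i)) {A : Set (PName P)}
    (hA : A.Countable) {p : P}
    (H : ∀ π : Pkg P, S.Cld π → (∀ i, x i ∈ π.N) → A ⊆ π.N → (∃ m, π.g m ≤ p) →
      R (S.Ms π) (π.val ∘ x)) : S.Frc h x p := by
  refine Sys.frc_dense fun q hq => ?_
  obtain ⟨s, hs, h1 | h1⟩ := Sys.frc_dec (h := h) hx q
  · exact ⟨s, hs, h1⟩
  · exfalso
    obtain ⟨π, h2, h3, h4, -⟩ := Sys.exists_cld S (Set.range x ∪ A)
      ((Set.countable_range x).union hA) ∅ Set.countable_empty s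
    have h5 : ∀ i, x i ∈ π.N := fun i => h2 (Or.inl ⟨i, rfl⟩)
    exact (Sys.frc_sem hx).1 h1 π h4 h5 ⟨0, h3.le⟩
      (H π h4 h5 (fun a ha => h2 (Or.inr ha)) ⟨0, (h3.le.trans hs).trans hq⟩)

/-- A statement holds in all the models if every condition has an extension that implies it in
the models with some additional names. -/
theorem frc_all (h : UD R) {x : Fin n → PName P} (hx : ∀ i, S.HS (x i))
    (H : ∀ q : P, ∃ s ≤ q, ∃ A : Set (PName P), A.Countable ∧ ∀ π : Pkg P, S.Cld π →
      (∀ i, x i ∈ π.N) → A ⊆ π.N → (∃ m, π.g m ≤ s) → R (S.Ms π) (π.val ∘ x)) :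
    ∀ π : Pkg P, S.Cld π → (∀ i, x i ∈ π.N) → R (S.Ms π) (π.val ∘ x) := by
  intro π hcl hxN
  refine (Sys.frc_sem (h := h) (p := ⊤) hx).1 ?_ π hcl hxN ⟨0, le_top⟩
  refine Sys.frc_dense fun q _ => ?_
  obtain ⟨s, hs, A, hA, H'⟩ := H q
  exact ⟨s, hs, frc_of hx hA H'⟩

end principle

/-! ### Ordinals -/

/-- The ordinal of an element of a well-ordered set. -/
noncomputable def oz {α : Ordinal.{0}} (i : α.ToType) : ZFSet.{0} :=
  (Ordinal.typein (α := α.ToType) (· < ·) i).toZFSet

theorem mem_oz {α : Ordinal.{0}} {z : ZFSet.{0}} : z ∈ α.toZFSet ↔ ∃ i : α.ToType, z = oz i := by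
  rw [Ordinal.mem_toZFSet_iff]
  constructor
  · rintro ⟨a, ha, rfl⟩
    have h : a < Ordinal.type (α := α.ToType) (· < ·) := by rwa [Ordinal.type_toType]
    exact ⟨Ordinal.enum (α := α.ToType) (· < ·) ⟨a, h⟩, by rw [oz, Ordinal.typein_enum]⟩
  · rintro ⟨i, rfl⟩
    refine ⟨_, ?_, rfl⟩
    have h := Ordinal.typein_lt_type (α := α.ToType) (· < ·) i
    rwa [Ordinal.type_toType] at h

theorem oz_inj {α : Ordinal.{0}} {i j : α.ToType} (h : oz i = oz j) : i = j :=
  Ordinal.typein_injective (α := α.ToType) (· < ·) (Ordinal.toZFSet_injective h)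

/-! ### The group -/

/-- The group of the automorphisms. -/
abbrev G : Type := (n : ℕ) → I → Equiv.Perm (E n)

namespace Cnd

/-- The action on the conditions. -/
def ap (g : G) (p : Cnd) : Cnd where
  f n i := (p.f n i).map (g n i)
  sm n := sm_of_subset (g := p.f n) (fun i hi h => hi (by rw [h]; rfl)) (p.sm n)

theorem ap_f (g : G) (p : Cnd) (n : ℕ) (i : I) : (ap g p).f n i = (p.f n i).map (g n i) := rfl

theorem ap_mul (g h : G) (p : Cnd) : ap (g * h) p = ap g (ap h p) := by
  refine ext' fun n i => ?_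
  rw [ap_f, ap_f, ap_f, Option.map_map]
  rfl

theorem ap_one (p : Cnd) : ap 1 p = p := by
  refine ext' fun n i => ?_
  rw [ap_f]
  exact Option.map_id_apply

theorem ap_le {g : G} {p q : Cnd} (h : p ≤ q) : ap g p ≤ ap g q := by
  intro n i e he
  rw [ap_f, Option.map_eq_some_iff] at he
  obtain ⟨a, ha, rfl⟩ := he
  rw [ap_f, h n i a ha]
  rfl

/-- The action on the conditions, as a homomorphism. -/
def acG : G →* (Cnd ≃o Cnd) where
  toFun g :=
    { toFun := ap g
      invFun := ap g⁻¹
      left_inv := fun p => by rw [← ap_mul, inv_mul_cancel, ap_one]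
      right_inv := fun p => by rw [← ap_mul, mul_inv_cancel, ap_one]
      map_rel_iff' := by
        intro p q
        constructor
        · intro h
          have h1 := ap_le (g := g⁻¹) h
          change ap g⁻¹ (ap g p) ≤ ap g⁻¹ (ap g q) at h1
          rwa [← ap_mul, ← ap_mul, inv_mul_cancel, ap_one, ap_one] at h1
        · exact ap_le }
  map_one' := RelIso.ext fun p => ap_one p
  map_mul' g h := RelIso.ext fun p => ap_mul g h p

theorem acG_apply (g : G) (p : Cnd) : acG g p = ap g p := rfl

end Cnd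

open Cnd

/-- The group of the automorphisms that fix the levels at most `k`. -/
def Hs (k : ℕ) : Subgroup G where
  carrier := {g | ∀ m ≤ k, g m = 1}
  mul_mem' := by
    intro a b ha hb m hm
    rw [Pi.mul_apply, ha m hm, hb m hm, mul_one]
  one_mem' := fun m _ => rfl
  inv_mem' := by
    intro a ha m hm
    rw [Pi.inv_apply, ha m hm, inv_one]

theorem mem_Hs {k : ℕ} {g : G} : g ∈ Hs k ↔ ∀ m ≤ k, g m = 1 := Iff.rfl

theorem Hs_anti {k l : ℕ} (h : k ≤ l) : Hs l ≤ Hs k := fun _ hg m hm => hg m (hm.trans h)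

/-- The symmetric system. -/
noncomputable def SS : Sys Cnd where
  G := G
  grp := inferInstance
  ac := acG
  top g := by
    refine ext' fun n i => ?_
    rw [acG_apply, ap_f]
    rfl
  F := Set.range Hs
  ne := ⟨_, 0, rfl⟩
  conj := by
    rintro _ ⟨k, rfl⟩ g
    refine ⟨Hs k, ⟨k, rfl⟩, fun h hh m hm => ?_⟩
    have h1 : (g⁻¹ * h * g) m = (g m)⁻¹ * h m * g m := rfl
    rw [h1, hh m hm, mul_one, inv_mul_cancel]
  dir := by
    rintro _ ⟨k, rfl⟩ _ ⟨l, rfl⟩
    exact ⟨Hs (max k l), ⟨_, rfl⟩, Hs_anti (le_max_left _ _), Hs_anti (le_max_right _ _)⟩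

/-- The action on the names. -/
noncomputable def ax (g : G) (x : PName Cnd) : PName Cnd := act (SS.ac g) x

/-- The name `x` is fixed by the automorphisms that fix the levels at most `k`. -/
def Fx (k : ℕ) (x : PName Cnd) : Prop := SS.Fix (Hs k) x

theorem fx_iff {k : ℕ} {x : PName Cnd} : Fx k x ↔ ∀ g ∈ Hs k, ∀ p, Feq (ax g x) x p := Iff.rfl

theorem sym_iff {x : PName Cnd} : SS.Sym x ↔ ∃ k, Fx k x := by
  constructor
  · rintro ⟨_, ⟨k, rfl⟩, h⟩
    exact ⟨k, h⟩
  · rintro ⟨k, h⟩
    exact ⟨_, ⟨k, rfl⟩, h⟩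

theorem ax_check (g : G) (z : ZFSet.{0}) : ax g (check z) = check z := act_check (SS.top g) z

theorem ax_opN (g : G) (x y : PName Cnd) : ax g (opN x y) = opN (ax g x) (ax g y) :=
  act_opN (SS.top g) x y

namespace Cnd

/-- The join of two conditions. -/
def jn (p q : Cnd) : Cnd where
  f m i := (p.f m i).orElse fun _ => q.f m i
  sm m := by
    refine sm_of_subset' (S := p.sp m ∪ q.sp m) (fun i hi => ?_) ?_
    · rcases h : p.f m i with _ | e
      · rw [h] at hi
        exact Or.inr hi
      · refine Or.inl ?_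
        change p.f m i ≠ none
        rw [h]
        exact Option.some_ne_none _
    · exact (mk_union_le _ _).trans_lt (add_lt_of_lt (aleph0_le_kap m) (p.sm' m) (q.sm' m))

theorem jn_le_left (p q : Cnd) : jn p q ≤ p := by
  intro m i e he
  change (p.f m i).orElse _ = some e
  rw [he]
  rfl

theorem jn_le_right {p q : Cnd} (h : ∀ m i e e', p.f m i = some e → q.f m i = some e' → e = e') :
    jn p q ≤ q := by
  intro m i e he
  change (p.f m i).orElse _ = some e
  rcases h1 : p.f m i with _ | e'
  · exact he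
  · rw [h m i e' e h1 he]
    rfl

theorem jn_none {p q : Cnd} {m : ℕ} {i : I} (h : p.f m i = none) : (jn p q).f m i = q.f m i := by
  change (p.f m i).orElse _ = _
  rw [h]
  rfl

/-- Homogeneity. -/
theorem homog {k : ℕ} {p q : Cnd} (h : LE k p q) : ∃ g ∈ Hs k, ∃ t, t ≤ ap g p ∧ t ≤ q := by
  classical
  let g : G := fun m i => if m ≤ k then 1 else
    match p.f m i, q.f m i with
    | some e, some e' => Equiv.swap e e'
    | _, _ => 1
  refine ⟨g, fun m hm => ?_, jn (ap g p) q, jn_le_left _ _, jn_le_right ?_⟩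
  · funext i
    exact if_pos hm
  · intro m i e e' he he'
    rw [ap_f, Option.map_eq_some_iff] at he
    obtain ⟨a, ha, rfl⟩ := he
    by_cases hm : m ≤ k
    · have h1 : g m i = 1 := if_pos hm
      rw [h1, Equiv.Perm.one_apply]
      rw [h m hm i e' he'] at ha
      exact (Option.some_injective _ ha).symm
    · have h1 : g m i = Equiv.swap a e' := by
        change (if m ≤ k then (1 : Equiv.Perm (E m)) else _) = _
        rw [if_neg hm, ha, he']
      rw [h1, Equiv.swap_apply_left]

/-- One value. -/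
noncomputable def sg (n : ℕ) (i : I) (e : E n) : Cnd where
  f m j := open Classical in if h : m = n then (if j = i then some (h ▸ e) else none) else none
  sm m := by
    classical
    refine sm_of_subset' (S := {i}) (fun j hj => ?_) ?_
    · by_contra h
      apply hj
      by_cases hm : m = n
      · have h2 : ¬ j = i := fun h' => h h'
        rw [dif_pos hm, if_neg h2]
      · rw [dif_neg hm]
    · rw [mk_singleton]
      exact one_lt_aleph0.trans_le (aleph0_le_kap m)

theorem sg_self (n : ℕ) (i : I) (e : E n) : (sg n i e).f n i = some e := by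
  classical
  unfold sg
  simp

theorem sg_some {n : ℕ} {i : I} {e : E n} {m : ℕ} {j : I} {e' : E m}
    (h : (sg n i e).f m j = some e') : ∃ hm : m = n, j = i ∧ e' = hm ▸ e := by
  classical
  unfold sg at h
  simp only at h
  split_ifs at h with h1 h2
  · exact ⟨h1, h2, (Option.some_injective _ h).symm⟩

theorem le_sg {n : ℕ} {i : I} {e : E n} {p : Cnd} : p ≤ sg n i e ↔ p.f n i = some e := by
  constructor
  · intro h
    exact h n i e (sg_self n i e)
  · intro h m j e' he
    obtain ⟨rfl, rfl, rfl⟩ := sg_some he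
    exact h

theorem ap_sg (g : G) (n : ℕ) (i : I) (e : E n) : ap g (sg n i e) = sg n i (g n i e) := by
  refine ext' fun m j => ?_
  rw [ap_f]
  by_cases hm : m = n
  · subst hm
    by_cases hj : j = i
    · subst hj
      rw [sg_self, sg_self]
      rfl
    · have h1 : ∀ e : E m, (sg m i e).f m j = none := by
        intro e
        by_contra h
        obtain ⟨e', h'⟩ := Option.ne_none_iff_exists'.1 h
        exact hj (sg_some h').2.1
      rw [h1, h1]
      rfl
  · have h1 : ∀ e : E n, (sg n i e).f m j = none := by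
      intro e
      by_contra h
      obtain ⟨e', h'⟩ := Option.ne_none_iff_exists'.1 h
      exact hm (sg_some h').1
    rw [h1, h1]
    rfl

/-- Adding a value. -/
theorem exists_add {p : Cnd} {n : ℕ} {i : I} (h : p.f n i = none) (e : E n) :
    ∃ q ≤ p, q.f n i = some e := by
  refine ⟨jn p (sg n i e), jn_le_left _ _, ?_⟩
  rw [jn_none h, sg_self]

end Cnd

end Pool.Agent.Q207.UL
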