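import Mathlib

/-!
# The cardinals and the conditions
-/

set_option autoImplicit false

namespace Pool.Agent.Q207.UL

open Cardinal

/-- The cardinals `κ 0 = ℵ₀` and `κ (n + 1) = (2 ^ κ n)⁺`. -/
noncomputable def kap : ℕ → Cardinal.{0}
  | 0 => ℵ₀
  | n + 1 => Order.succ (2 ^ kap n)

theorem aleph0_le_kap (n : ℕ) : ℵ₀ ≤ kap n := by
  induction n with
  | zero => exact le_rfl
  | succ n ih => exact (ih.trans (Cardinal.cantor _).le).trans (Order.le_succ _)

theorem aleph0_le_pow (n : ℕ) : ℵ₀ ≤ 2 ^ kap n := (aleph0_le_kap n).trans (Cardinal.cantor _).le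

theorem kap_reg (n : ℕ) : (kap n).IsRegular := by
  cases n with
  | zero => exact isRegular_aleph0
  | succ n => exact isRegular_succ (aleph0_le_pow n)

theorem pow_lt_kap (n : ℕ) : 2 ^ kap n < kap (n + 1) := Order.lt_succ _

theorem kap_lt_succ (n : ℕ) : kap n < kap (n + 1) := (Cardinal.cantor _).trans (pow_lt_kap n)

theorem kap_strictMono : StrictMono kap := strictMono_nat_of_lt_succ kap_lt_succ

/-- The supremum of the cardinals `κ n`. -/
noncomputable def lam : Cardinal.{0} := ⨆ n, kap n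

theorem kap_lt_lam (n : ℕ) : kap n < lam :=
  (kap_lt_succ n).trans_le (le_ciSup (Cardinal.bddAbove_of_small) (n + 1))

theorem exists_kap_of_lt {c : Cardinal.{0}} (h : c < lam) : ∃ n, c < kap n := exists_lt_of_lt_ciSup h

theorem aleph0_le_lam : ℵ₀ ≤ lam := (aleph0_le_kap 0).trans (kap_lt_lam 0).le

/-- The coordinates. -/
abbrev I : Type := lam.ord.ToType

/-- The well-ordered set of size `κ n`. -/
abbrev K (n : ℕ) : Type := (kap n).ord.ToType

/-- The values at level `n`. -/
abbrev E (n : ℕ) : Type := Set (K n)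

theorem mk_I : #I = lam := by simp [I]

theorem mk_K (n : ℕ) : #(K n) = kap n := by simp [K]

theorem mk_E (n : ℕ) : #(E n) = 2 ^ kap n := by rw [E, mk_set, mk_K]

instance (n : ℕ) : Nonempty (K n) := by
  rw [← mk_ne_zero_iff, mk_K]
  exact (kap_reg n).ne_zero

/-- The conditions. -/
structure Cnd : Type where
  /-- the values -/
  f : (n : ℕ) → I → Option (E n)
  sm : ∀ n, #{i // f n i ≠ none} < kap n

namespace Cnd

theorem ext' {p q : Cnd} (h : ∀ n i, p.f n i = q.f n i) : p = q := by
  cases p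
  cases q
  congr
  funext n i
  exact h n i

instance : Preorder Cnd where
  le p q := ∀ n i e, q.f n i = some e → p.f n i = some e
  le_refl _ _ _ _ h := h
  le_trans _ _ _ h1 h2 n i e h := h1 n i e (h2 n i e h)

theorem le_def {p q : Cnd} : p ≤ q ↔ ∀ n i e, q.f n i = some e → p.f n i = some e := Iff.rfl

instance : OrderTop Cnd where
  top := ⟨fun _ _ => none, fun n => by
    have h : IsEmpty {i : I // (none : Option (E n)) ≠ none} := ⟨fun i => i.2 rfl⟩
    rw [mk_eq_zero]
    exact (kap_reg n).pos⟩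
  le_top _ _ _ _ h := by cases h

@[simp] theorem top_f (n : ℕ) (i : I) : (⊤ : Cnd).f n i = none := rfl

/-- Small supports: a bound. -/
theorem sm_of_subset {n : ℕ} {f g : I → Option (E n)} (h : ∀ i, f i ≠ none → g i ≠ none)
    (hg : #{i // g i ≠ none} < kap n) : #{i // f i ≠ none} < kap n := by
  refine lt_of_le_of_lt ?_ hg
  exact mk_le_of_injective (f := fun i : {i // f i ≠ none} => (⟨i.1, h _ i.2⟩ : {i // g i ≠ none}))
    fun a b h => Subtype.ext (congrArg (fun x => x.1) h)

theorem sm_of_subset' {n : ℕ} {f : I → Option (E n)} {S : Set I} (h : ∀ i, f i ≠ none → i ∈ S)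
    (hS : #S < kap n) : #{i // f i ≠ none} < kap n := by
  refine lt_of_le_of_lt ?_ hS
  exact mk_le_of_injective (f := fun i : {i // f i ≠ none} => (⟨i.1, h _ i.2⟩ : S))
    fun a b h => Subtype.ext (congrArg (fun x => x.1) h)

/-- The support at level `n`. -/
def sp (p : Cnd) (n : ℕ) : Set I := {i | p.f n i ≠ none}

theorem sm' (p : Cnd) (n : ℕ) : #(p.sp n) < kap n := p.sm n

/-- The levels at most `n` from `r` and the other levels from `q`. -/
def mrg (n : ℕ) (r q : Cnd) : Cnd where
  f m i := if m ≤ n then r.f m i else q.f m i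
  sm m := by
    by_cases h : m ≤ n
    · simp only [if_pos h]
      exact r.sm m
    · simp only [if_neg h]
      exact q.sm m

theorem mrg_lo {n : ℕ} {r q : Cnd} {m : ℕ} (h : m ≤ n) (i : I) : (mrg n r q).f m i = r.f m i :=
  if_pos h

theorem mrg_hi {n : ℕ} {r q : Cnd} {m : ℕ} (h : n < m) (i : I) : (mrg n r q).f m i = q.f m i :=
  if_neg (not_le.2 h)

/-- The condition `q'` extends `q` and has the same levels at most `n`. -/
def Le (n : ℕ) (q' q : Cnd) : Prop := q' ≤ q ∧ ∀ m ≤ n, ∀ i, q'.f m i = q.f m i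

theorem Le.refl (n : ℕ) (q : Cnd) : Le n q q := ⟨le_rfl, fun _ _ _ => rfl⟩

theorem Le.trans {n : ℕ} {a b c : Cnd} (h : Le n a b) (h' : Le n b c) : Le n a c :=
  ⟨h.1.trans h'.1, fun m hm i => (h.2 m hm i).trans (h'.2 m hm i)⟩

/-- Common extensions of chains. -/
theorem exists_lb (n : ℕ) {J : Type} [Nonempty J] (hJ : #J ≤ 2 ^ kap n) (F : J → Cnd)
    (hF : ∀ i j, Le n (F i) (F j) ∨ Le n (F j) (F i)) : ∃ b, ∀ j, Le n b (F j) := by
  classical
  let u : (m : ℕ) → I → Option (E m) := fun m i =>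
    if h : ∃ j e, (F j).f m i = some e then some h.choose_spec.choose else none
  have hu : ∀ m i j e, (F j).f m i = some e → u m i = some e := by
    intro m i j e he
    have h : ∃ j e, (F j).f m i = some e := ⟨j, e, he⟩
    have h1 : u m i = some h.choose_spec.choose := dif_pos h
    have h2 := h.choose_spec.choose_spec
    rw [h1]
    rcases hF j h.choose with h3 | h3
    · have h4 := h3.1 m i _ h2
      rw [he] at h4
      exact h4.symm
    · have h4 := h3.1 m i _ he
      rw [h2] at h4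
      exact h4
  have hu' : ∀ m i, u m i ≠ none → ∃ j, (F j).f m i ≠ none := by
    intro m i h
    by_contra h1
    push Not at h1
    apply h
    refine dif_neg ?_
    rintro ⟨j, e, he⟩
    rw [h1 j] at he
    cases he
  have hlo : ∀ m ≤ n, ∀ i j, u m i = (F j).f m i := by
    intro m hm i j
    rcases h : (F j).f m i with _ | e
    · by_contra h1
      obtain ⟨k, hk⟩ := hu' m i h1
      apply hk
      rcases hF j k with h3 | h3
      · rw [← h3.2 m hm i, h]
      · rw [h3.2 m hm i, h]
    · exact hu m i j e h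
  refine ⟨⟨u, fun m => ?_⟩, fun j => ⟨fun m i e he => hu m i j e he, fun m hm i => hlo m hm i j⟩⟩
  by_cases hm : m ≤ n
  · obtain ⟨j⟩ := ‹Nonempty J›
    exact sm_of_subset (g := (F j).f m) (fun i hi => by rwa [← hlo m hm i j]) ((F j).sm m)
  · refine sm_of_subset' (S := ⋃ j, (F j).sp m) (fun i hi => ?_) ?_
    · obtain ⟨j, hj⟩ := hu' m i hi
      exact Set.mem_iUnion.2 ⟨j, hj⟩
    · have h1 : #J < kap m := by
        refine hJ.trans_lt ((pow_lt_kap n).trans_le (kap_strictMono.monotone ?_))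
        omega
      exact (card_iUnion_lt_iff_forall_of_isRegular (kap_reg m) h1).2 fun j => (F j).sm' m

end Cnd

/-! ### Recursion along well-orders -/

section chain

variable {Q : Type*} {J : Type*} (r : J → J → Prop) [IsWellOrder J r]

open Classical in
/-- The chain. -/
noncomputable def chF (R : Q → Q → Prop) (S : J → Q → Q → Prop) (p : Q) : J → Q :=
  (IsWellFounded.wf (r := r)).fix fun j g =>
    if h : ∃ x b, R b p ∧ (∀ i (hi : r i j), R b (g i hi)) ∧ R x b ∧ S j b x then h.choose else p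

theorem exists_chain (R : Q → Q → Prop) (htr : ∀ a b c, R a b → R b c → R a c)
    (hrf : ∀ a, R a a) (S : J → Q → Q → Prop) (p : Q)
    (hlb : ∀ (j : J) (F : {i // r i j} → Q), (∀ a b, R (F a) (F b) ∨ R (F b) (F a)) →
      (∀ a, R (F a) p) → ∃ b, R b p ∧ ∀ i, R b (F i))
    (hS : ∀ j b, R b p → ∃ b', R b' b ∧ S j b b') :
    ∃ F : J → Q, (∀ j, R (F j) p) ∧ (∀ i j, r i j → R (F j) (F i)) ∧
      ∀ j, ∃ b, R b p ∧ (∀ i, r i j → R b (F i)) ∧ R (F j) b ∧ S j b (F j) := by
  classical
  set F : J → Q := chF r R S p with hF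
  have hFeq : ∀ j, F j = if h : ∃ x b, R b p ∧ (∀ i, r i j → R b (F i)) ∧ R x b ∧ S j b x
      then h.choose else p := by
    intro j
    rw [hF, chF, WellFounded.fix_eq]
  have key : ∀ j, ∃ b, R b p ∧ (∀ i, r i j → R b (F i)) ∧ R (F j) b ∧ S j b (F j) := by
    intro j
    induction j using (IsWellFounded.wf (r := r)).induction with
    | _ j ih =>
    have hlt : ∀ i i', r i i' → r i' j → R (F i') (F i) := by
      intro i i' h1 h2
      obtain ⟨b, -, h3, h4, -⟩ := ih i' h2
      exact htr _ _ _ h4 (h3 i h1)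
    obtain ⟨b, hb, hb'⟩ := hlb j (fun i => F i.1) (by
      rintro ⟨a, ha⟩ ⟨b, hb⟩
      rcases trichotomous_of r a b with h | h | h
      · exact Or.inr (hlt a b h hb)
      · subst h
        exact Or.inl (hrf _)
      · exact Or.inl (hlt b a h ha)) (by
      rintro ⟨a, ha⟩
      obtain ⟨b, h1, -, h2, -⟩ := ih a ha
      exact htr _ _ _ h2 h1)
    obtain ⟨x, hx, hx'⟩ := hS j b hb
    have h : ∃ x b, R b p ∧ (∀ i, r i j → R b (F i)) ∧ R x b ∧ S j b x :=
      ⟨x, b, hb, fun i hi => hb' ⟨i, hi⟩, hx, hx'⟩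
    rw [hFeq j, dif_pos h]
    exact h.choose_spec
  refine ⟨F, fun j => ?_, fun i j hij => ?_, key⟩
  · obtain ⟨b, h1, -, h2, -⟩ := key j
    exact htr _ _ _ h2 h1
  · obtain ⟨b, -, h1, h2, -⟩ := key j
    exact htr _ _ _ h2 (h1 i hij)

end chain

namespace Cnd

theorem exists_lb' (n : ℕ) {J : Type} (hJ : #J ≤ 2 ^ kap n) (F : J → Cnd) (p : Cnd)
    (hF : ∀ i j, Le n (F i) (F j) ∨ Le n (F j) (F i)) (hp : ∀ j, Le n (F j) p) :
    ∃ b, Le n b p ∧ ∀ j, Le n b (F j) := by
  have hJ' : #(Option J) ≤ 2 ^ kap n := by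
    rw [mk_option]
    exact add_le_of_le (aleph0_le_pow n) hJ (one_lt_aleph0.le.trans (aleph0_le_pow n))
  obtain ⟨b, hb⟩ := exists_lb n hJ' (fun o : Option J => o.elim p F) (by
    rintro (_ | i) (_ | j)
    · exact Or.inl (Le.refl _ _)
    · exact Or.inr (hp j)
    · exact Or.inl (hp i)
    · exact hF i j)
  exact ⟨b, hb none, fun j => hb (some j)⟩

/-- Upper extensions meet few dense sets. -/
theorem exists_meet (n : ℕ) (p : Cnd) {J : Type} (hJ : #J ≤ 2 ^ kap n) (D : J → Cnd → Prop)
    (hD : ∀ j q, Le n q p → ∃ q', Le n q' q ∧ D j q')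
    (hm : ∀ j q q', D j q → Le n q' q → D j q') : ∃ q, Le n q p ∧ ∀ j, D j q := by
  obtain ⟨F, h1, h2, h3⟩ := exists_chain (J := J) WellOrderingRel (Le n)
    (fun _ _ _ h h' => h.trans h') (Le.refl n) (fun j _ q => D j q) p
    (fun j F hF hp => exists_lb' n ((mk_subtype_le _).trans hJ) F p hF hp) hD
  obtain ⟨b, hb, hb'⟩ := exists_lb' n hJ F p (by
    intro i j
    rcases trichotomous_of WellOrderingRel i j with h | h | h
    · exact Or.inr (h2 _ _ h)
    · subst h
      exact Or.inl (Le.refl _ _)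
    · exact Or.inl (h2 _ _ h)) h1
  refine ⟨b, hb, fun j => ?_⟩
  obtain ⟨-, -, -, -, h⟩ := h3 j
  exact hm j _ _ h (hb' j)

/-- The low conditions with the support in `D`. -/
def Low (n : ℕ) (D : Set I) : Set Cnd :=
  {r | (∀ m, n < m → ∀ i, r.f m i = none) ∧ ∀ m i, r.f m i ≠ none → i ∈ D}

theorem Low.mono {n : ℕ} {D D' : Set I} (h : D ⊆ D') {r : Cnd} (hr : r ∈ Low n D) :
    r ∈ Low n D' := ⟨hr.1, fun m i hi => h (hr.2 m i hi)⟩

theorem card_low (n : ℕ) (D : Set I) (hD : #D ≤ 2 ^ kap n) : #(Low n D) ≤ 2 ^ kap n := by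
  let T : Type := Σ m : Fin (n + 1), D × E m
  have hn : ∀ c : Cardinal.{0}, ℵ₀ ≤ c → (((n + 1 : ℕ) : Cardinal.{0})) * c ≤ c := by
    intro c hc
    refine (mul_le_mul_left (natCast_lt_aleph0.le.trans hc) c).trans ?_
    rw [mul_eq_self hc]
  have hT : #T ≤ 2 ^ kap n := by
    rw [mk_sigma]
    refine (sum_le_sum _ (fun _ => 2 ^ kap n) fun m => ?_).trans ?_
    · rw [mk_prod, lift_id, lift_id, mk_E]
      refine (mul_le_mul' hD (power_le_power_left two_ne_zero
        (kap_strictMono.monotone (Nat.le_of_lt_succ m.2)))).trans ?_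
      rw [mul_eq_self (aleph0_le_pow n)]
    · rw [sum_const, lift_id, lift_id, mk_fin]
      exact hn _ (aleph0_le_pow n)
  let G : Low n D → {t : Set T // #t ≤ kap n} := fun r =>
    ⟨{x | r.1.f x.1 x.2.1 = some x.2.2}, by
      have h1 : #{x : T | r.1.f x.1 x.2.1 = some x.2.2} ≤
          #(Σ m : Fin (n + 1), {i // r.1.f m i ≠ none}) := by
        refine mk_le_of_injective (f := fun x => ⟨x.1.1, x.1.2.1, by
          have := x.2
          rw [Set.mem_ofPred_eq] at this
          rw [this]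
          exact Option.some_ne_none _⟩) ?_
        rintro ⟨⟨m, ⟨i, hi⟩, e⟩, h1⟩ ⟨⟨m', ⟨i', hi'⟩, e'⟩, h2⟩ h
        simp only [Sigma.mk.injEq] at h
        obtain ⟨rfl, h⟩ := h
        have h3 := eq_of_heq h
        simp only [Subtype.mk.injEq] at h3
        subst h3
        have h1' : r.1.f m i = some e := h1
        have h2' : r.1.f m i = some e' := h2
        rw [h1'] at h2'
        cases h2'
        rfl
      refine h1.trans ?_
      rw [mk_sigma]
      refine (sum_le_sum _ (fun _ => kap n) fun m => ?_).trans ?_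
      · exact (r.1.sm m).le.trans (kap_strictMono.monotone (Nat.le_of_lt_succ m.2))
      · rw [sum_const, lift_id, lift_id, mk_fin]
        exact hn _ (aleph0_le_kap n)⟩
  have hG : Function.Injective G := by
    intro r r' h
    have h1 : ∀ x : T, r.1.f x.1 x.2.1 = some x.2.2 ↔ r'.1.f x.1 x.2.1 = some x.2.2 := by
      intro x
      have h2 := congrArg (fun t => x ∈ t.1) h
      exact iff_of_eq h2
    refine Subtype.ext (ext' fun m i => ?_)
    by_cases hm : n < m
    · rw [r.2.1 m hm i, r'.2.1 m hm i]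
    · by_cases hi : i ∈ D
      · have h3 : ∀ e : E m, r.1.f m i = some e ↔ r'.1.f m i = some e := fun e =>
          h1 ⟨⟨m, by omega⟩, ⟨i, hi⟩, e⟩
        rcases h4 : r.1.f m i with _ | e
        · rcases h5 : r'.1.f m i with _ | e'
          · rfl
          · rw [(h3 e').2 h5] at h4
            cases h4
        · rw [(h3 e).1 h4]
      · have h3 : r.1.f m i = none := by
          by_contra h4
          exact hi (r.2.2 m i h4)
        have h5 : r'.1.f m i = none := by
          by_contra h4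
          exact hi (r'.2.2 m i h4)
        rw [h3, h5]
  refine (mk_le_of_injective hG).trans ((mk_bounded_set_le T (kap n)).trans ?_)
  refine (power_le_power_right (max_le hT (aleph0_le_pow n))).trans ?_
  rw [← power_mul, mul_eq_self (aleph0_le_kap n)]

/-- The restriction to the levels at most `n` and the coordinates in `D`. -/
noncomputable def res (n : ℕ) (D : Set I) (s : Cnd) : Cnd where
  f m i := open Classical in if m ≤ n ∧ i ∈ D then s.f m i else none
  sm m := by
    classical
    refine sm_of_subset (g := s.f m) (fun i hi => ?_) (s.sm m)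
    by_cases h : m ≤ n ∧ i ∈ D
    · rwa [if_pos h] at hi
    · rw [if_neg h] at hi
      exact absurd rfl hi

theorem res_pos {n : ℕ} {D : Set I} {s : Cnd} {m : ℕ} {i : I} (hm : m ≤ n) (hi : i ∈ D) :
    (res n D s).f m i = s.f m i := by
  classical
  exact if_pos ⟨hm, hi⟩

theorem res_low (n : ℕ) (D : Set I) (s : Cnd) : res n D s ∈ Low n D := by
  classical
  refine ⟨fun m hm i => if_neg fun h => absurd h.1 (not_le.2 hm), fun m i h => ?_⟩
  by_contra h1
  exact h (if_neg fun h2 => h1 h2.2)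

/-- The condition `r` extends `p` on the levels at most `n`. -/
def LE (n : ℕ) (r p : Cnd) : Prop := ∀ m ≤ n, ∀ i e, p.f m i = some e → r.f m i = some e

/-- The supports of the levels at most `n`. -/
def spl (n : ℕ) (r : Cnd) : Set I := {i | ∃ m ≤ n, r.f m i ≠ none}

theorem card_spl (n : ℕ) (r : Cnd) : #(r.spl n) < kap n := by
  have h : r.spl n ⊆ ⋃ m : Fin (n + 1), r.sp m := by
    rintro i ⟨m, hm, h⟩
    exact Set.mem_iUnion.2 ⟨⟨m, by omega⟩, h⟩
  refine (mk_le_mk_of_subset h).trans_lt ?_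
  refine (card_iUnion_lt_iff_forall_of_isRegular (kap_reg n) ?_).2 fun m => ?_
  · rw [mk_fin]
    exact (kap_reg n).nat_lt _
  · exact (r.sm' m).trans_le (kap_strictMono.monotone (Nat.le_of_lt_succ m.2))

/-- Subsets of `K n` of size less than `κ n` are bounded. -/
theorem K_bdd (n : ℕ) {T : Type} (hT : #T < kap n) (j : T → K n) : ∃ j0, ∀ t, j t < j0 := by
  by_contra h
  push Not at h
  have h1 : IsCofinal (Set.range j) := by
    intro a
    obtain ⟨t, ht⟩ := h a
    exact ⟨j t, ⟨t, rfl⟩, ht⟩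
  have h2 := Order.cof_le h1
  have h3 : Order.cof (K n) = kap n := by
    have := (kap_reg n).cof_ord
    simpa using this
  rw [h3] at h2
  exact absurd (h2.trans mk_range_le) (not_le.2 hT)

end Cnd

end Pool.Agent.Q207.UL
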