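import Pool.Agent.Q207.UL.Reg

/-!
# The collapse of the cardinals between `κ n` and `κ (n + 1)`
-/

set_option autoImplicit false
set_option linter.unusedSectionVars false
set_option linter.unreachableTactic false
set_option linter.unusedTactic false

namespace Pool.Agent.Q207.UL

open Pool.Agent.W868 Pool.Agent.W868.PName Pool.Agent.Q211.SY
open ZFSet (pair)
open Cardinal Cnd

/-- The ordinal `κ n`. -/
noncomputable def Kz (n : ℕ) : ZFSet.{0} := (kap n).ord.toZFSet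

/-- The ordinal `λ`. -/
noncomputable def Lz : ZFSet.{0} := lam.ord.toZFSet

theorem Kz_sub_Lz (n : ℕ) : Kz n ⊆ Lz :=
  Ordinal.toZFSet_subset_toZFSet_iff.2 (Cardinal.ord_le_ord.2 (kap_lt_lam n).le)

theorem mem_Kz {n : ℕ} {z : ZFSet.{0}} : z ∈ Kz n ↔ ∃ i : K n, z = oz i := mem_oz

theorem mem_Lz {z : ZFSet.{0}} : z ∈ Lz ↔ ∃ i : I, z = oz i := mem_oz

theorem exists_I {n : ℕ} (k : K n) : ∃ i : I, oz i = oz k := by
  obtain ⟨i, hi⟩ := mem_Lz.1 (Kz_sub_Lz n (mem_Kz.2 ⟨k, rfl⟩))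
  exact ⟨i, hi.symm⟩

/-- There is a free coordinate below `κ n`. -/
theorem exists_free (n : ℕ) (p : Cnd) : ∃ i : I, oz i ∈ Kz n ∧ p.f n i = none := by
  by_contra h
  push Not at h
  choose F hF using fun k : K n => exists_I k
  have h1 : ∀ k, F k ∈ p.sp n := by
    intro k
    refine h (F k) ?_
    rw [hF]
    exact mem_Kz.2 ⟨k, rfl⟩
  have h2 : Function.Injective fun k => (⟨F k, h1 k⟩ : p.sp n) := by
    intro a b hab
    have h3 : F a = F b := congrArg (fun x => x.1) hab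
    exact oz_inj (by rw [← hF a, ← hF b, h3])
  have h3 := mk_le_of_injective h2
  rw [mk_K] at h3
  exact absurd h3 (not_le.2 (p.sm' n))

/-- Two values of the generic function. -/
theorem gen_uniq {π : Pkg Cnd} {n : ℕ} {i : I} {e e' : E n} {k k' : ℕ}
    (h : (π.g k).f n i = some e) (h' : (π.g k').f n i = some e') : e = e' := by
  have h1 := (π.g_le_left k k') n i e h
  have h2 := (π.g_le_right k k') n i e' h'
  rw [h1] at h2
  exact Option.some_injective _ h2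

/-- The name for a collapse. -/
noncomputable def Jn (n : ℕ) {ν : Ordinal.{0}} (j : E n → ν.ToType) : PName Cnd :=
  PName.mk ({i : I // oz i ∈ Kz n} × E n)
    (fun t => opN (check (oz t.1.1)) (check (oz (j t.2)))) (fun t => sg n t.1.1 t.2)

theorem ax_Jn {n : ℕ} {ν : Ordinal.{0}} (j : E n → ν.ToType) {g : G} (hg : g ∈ Hs n) :
    ax g (Jn n j) = Jn n j := by
  unfold ax Jn
  rw [act]
  congr 1
  · funext t
    change ax g (opN _ _) = _
    rw [ax_opN, ax_check, ax_check]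
  · funext t
    change ap g (sg n t.1.1 t.2) = _
    rw [ap_sg, hg n le_rfl]
    rfl

theorem hs_Jn {n : ℕ} {ν : Ordinal.{0}} (j : E n → ν.ToType) : SS.HS (Jn n j) := by
  refine SS.hs_iff.2 ⟨sym_iff.2 ⟨n, fun g hg p => ?_⟩, fun z c hz => ?_⟩
  · change Feq (ax g (Jn n j)) _ _
    rw [ax_Jn j hg]
    exact Feq.refl _ _
  · obtain ⟨t, rfl, rfl⟩ := hz
    exact SS.hs_opN (SS.hs_check _) (SS.hs_check _)

theorem mem_Jn {π : Pkg Cnd} {n : ℕ} {ν : Ordinal.{0}} {j : E n → ν.ToType} {z : ZFSet.{0}}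
    (h : z ∈ π.val (Jn n j)) : ∃ (i : I) (e : E n) (k : ℕ), oz i ∈ Kz n ∧ oz i ∈ π.Z ∧
      oz (j e) ∈ π.Z ∧ (π.g k).f n i = some e ∧ z = pair (π.hat (oz i)) (π.hat (oz (j e))) := by
  obtain ⟨w, hw, c, ⟨⟨⟨i, hi⟩, e⟩, rfl, rfl⟩, ⟨k, hk⟩, rfl⟩ := π.mem_val.1 h
  have h1 : oz i ∈ π.Z := π.fst_mem hw
  have h2 : oz (j e) ∈ π.Z := π.snd_mem hw
  exact ⟨i, e, k, hi, h1, h2, le_sg.1 hk, π.val_opN h1 h2⟩

theorem Jn_surj {n : ℕ} {ν : Ordinal.{0}} {j : E n → ν.ToType} (hj : Function.Surjective j)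
    {π : Pkg Cnd} (hcl : SS.Cld π) (hJ : Jn n j ∈ π.N) (hK : Kz n ∈ π.Z) {b : ν.ToType}
    (hb : oz b ∈ π.Z) : ∃ a ∈ π.hat (Kz n), pair a (π.hat (oz b)) ∈ π.val (Jn n j) := by
  have hud : UD fun _ (v : Fin 3 → ZFSet.{0}) => ∃ a ∈ v 1, pair a (v 2) ∈ v 0 := by
    (repeat' first
      | assumption
      | exact UF.proj _
      | exact UF.om
      | exact UD.prop _
      | apply UD.not | apply UD.and | apply UD.or | apply UD.imp | apply UD.iff
      | apply UD.bex | apply UD.ball | apply UD.ex | apply UD.all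
      | apply UD.eq | apply UD.mem | apply UF.pair)
  refine frc_all hud (x := ![Jn n j, check (Kz n), check (oz b)]) ?_ ?_ π hcl ?_
  · intro i
    fin_cases i
    · exact hs_Jn j
    · exact SS.hs_check _
    · exact SS.hs_check _
  · intro q
    obtain ⟨i, hi, hq⟩ := exists_free n q
    obtain ⟨e, rfl⟩ := hj b
    obtain ⟨s, hs, hse⟩ := exists_add hq e
    refine ⟨s, hs, {check (oz i)}, Set.countable_singleton _, ?_⟩
    rintro π hcl hx hA ⟨m, hm⟩
    have hiZ : oz i ∈ π.Z := hA rfl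
    have hbZ : oz (j e) ∈ π.Z := hx 2
    have hKZ : Kz n ∈ π.Z := hx 1
    refine ⟨π.hat (oz i), (π.hat_mem_hat hiZ hKZ).2 hi, ?_⟩
    change pair (π.hat (oz i)) (π.hat (oz (j e))) ∈ π.val (Jn n j)
    have h1 := π.val_mem_val (x := Jn n j) (π.opN_mem hiZ hbZ) ⟨(⟨i, hi⟩, e), rfl, rfl⟩
      (hm.trans (le_sg.2 hse))
    rw [π.val_opN hiZ hbZ] at h1
    exact h1
  · intro i
    fin_cases i
    · exact hJ
    · exact hK
    · exact hb

theorem ud_inj : UD fun M (v : Fin 2 → ZFSet.{0}) => Inj M (v 0) (v 1) := by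
  unfold Inj
  exact UD.ex (UD.isInj (UF.proj _) (UF.proj _) (UF.proj _))

/-- The ordinals below `κ (n + 1)` have size at most `κ n` in the models. -/
theorem inj_lt (n : ℕ) {π : Pkg Cnd} (hcl : SS.Cld π) (hK : Kz n ∈ π.Z) {b : ZFSet.{0}}
    (hb : b ∈ Kz (n + 1)) (hbZ : b ∈ π.Z) : Inj (SS.Ms π) (π.hat b) (π.hat (Kz n)) := by
  obtain ⟨ν, hν, rfl⟩ := Ordinal.mem_toZFSet_iff.1 hb
  by_cases h0 : Nonempty ν.ToType
  · have hcard : #ν.ToType ≤ #(E n) := by
      rw [mk_E, card_elts]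
      exact Order.lt_succ_iff.1 (Cardinal.lt_ord.1 hν)
    obtain ⟨⟨f, hf⟩⟩ := hcard
    obtain ⟨j, hj⟩ : ∃ j : E n → ν.ToType, Function.Surjective j :=
      ⟨Function.invFun f, Function.invFun_surjective hf⟩
    refine frc_all ud_inj (x := ![check ν.toZFSet, check (Kz n)]) ?_ ?_ π hcl ?_
    · intro i
      fin_cases i
      · exact SS.hs_check _
      · exact SS.hs_check _
    · intro q
      refine ⟨q, le_rfl, {Jn n j}, Set.countable_singleton _, ?_⟩
      rintro π hcl hx hA -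
      have hJ : Jn n j ∈ π.N := hA rfl
      have hνZ : ν.toZFSet ∈ π.Z := hx 0
      have hKZ : Kz n ∈ π.Z := hx 1
      have hM := T_ZF.isZF hcl
      have hJM : π.val (Jn n j) ∈ SS.Ms π := Sys.mem_Ms hJ (hs_Jn j)
      have hKM : π.hat (Kz n) ∈ SS.Ms π := Sys.mem_Ms hKZ (SS.hs_check _)
      have hνM : π.hat ν.toZFSet ∈ SS.Ms π := Sys.mem_Ms hνZ (SS.hs_check _)
      have hKo : (π.hat (Kz n)).IsOrdinal := π.hat_isOrdinal (ZFSet.isOrdinal_toZFSet _)
      have hB := hM.base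
      change Inj (SS.Ms π) (π.hat ν.toZFSet) (π.hat (Kz n))
      refine Inj.of_rel hM hνM hKM (R := fun b a => pair a b ∈ π.val (Jn n j) ∧
        ∀ a' ∈ a, ¬ pair a' b ∈ π.val (Jn n j)) ?_ ?_ ?_ ?_
      · (repeat' first
          | assumption
          | exact DfnF.proj _
          | exact DfnF.const (by assumption)
          | exact DfnF.const' (by first | assumption | trivial) (by first | assumption | trivial)
          | exact Dfn.prop _
          | apply Dfn.not | apply Dfn.and | apply Dfn.or | apply Dfn.imp | apply Dfn.iff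
          | apply hB.bex | apply hB.ball | apply Dfn.ex | apply Dfn.all
          | apply Dfn.eq | apply Dfn.mem | apply hB.pair')
      · intro b hb
        obtain ⟨b, hb', hbZ, rfl⟩ := π.mem_hat.1 hb
        obtain ⟨b, rfl⟩ := mem_oz.1 hb'
        obtain ⟨a0, ha0, ha0'⟩ := Jn_surj hj hcl hJ hKZ hbZ
        obtain ⟨a, ⟨ha, ha'⟩, hmin⟩ := ZFSet.mem_wf.has_min
          {a | a ∈ π.hat (Kz n) ∧ pair a (π.hat (oz b)) ∈ π.val (Jn n j)} ⟨a0, ha0, ha0'⟩
        exact ⟨a, ha, ha', fun a' h1 h2 => hmin a' ⟨hKo.mem_trans h1 ha, h2⟩ h1⟩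
      · rintro b - a ha a' ha' ⟨h1, h2⟩ ⟨h3, h4⟩
        rcases (hKo.mem ha).mem_trichotomous (hKo.mem ha') with h | h | h
        · exact absurd h1 (h4 a h)
        · exact h
        · exact absurd h3 (h2 a' h)
      · rintro b - b' - a - ⟨h1, -⟩ ⟨h2, -⟩
        obtain ⟨i, e, k, -, hi, -, h3, h4⟩ := mem_Jn h1
        obtain ⟨i', e', k', -, hi', -, h5, h6⟩ := mem_Jn h2
        obtain ⟨rfl, rfl⟩ := ZFSet.pair_inj.1 h4
        obtain ⟨h7, rfl⟩ := ZFSet.pair_inj.1 h6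
        obtain rfl := oz_inj ((π.hat_inj hi hi').1 h7)
        rw [gen_uniq h3 h5]
    · intro i
      fin_cases i
      · exact hbZ
      · exact hK
  · have hM := T_ZF.isZF hcl
    have hKM : π.hat (Kz n) ∈ SS.Ms π := Sys.mem_Ms hK (SS.hs_check _)
    have hνM : π.hat ν.toZFSet ∈ SS.Ms π := Sys.mem_Ms hbZ (SS.hs_check _)
    refine Inj.of_subset hM hνM hKM fun z hz => ?_
    obtain ⟨y, hy, -, rfl⟩ := π.mem_hat.1 hz
    obtain ⟨i, rfl⟩ := mem_oz.1 hy
    exact absurd ⟨i⟩ h0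

end Pool.Agent.Q207.UL
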