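import Pool.Agent.Q207.UL.Cnd

/-!
# The fusion lemma
-/

set_option autoImplicit false

namespace Pool.Agent.Q207.UL

open Cardinal

namespace Cnd

theorem LE.trans {n : ℕ} {a b c : Cnd} (h : LE n a b) (h' : LE n b c) : LE n a c :=
  fun m hm i e he => h m hm i e (h' m hm i e he)

theorem LE.of_le {n : ℕ} {a b : Cnd} (h : a ≤ b) : LE n a b := fun m _ i e he => h m i e he

theorem mrg_le {n : ℕ} {r q : Cnd} (h : LE n r q) : mrg n r q ≤ q := by
  intro m i e he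
  by_cases hm : m ≤ n
  · rw [mrg_lo hm]
    exact h m hm i e he
  · rw [mrg_hi (not_le.1 hm)]
    exact he

theorem mrg_mono {n : ℕ} {r r' q q' : Cnd} (h : LE n r' r) (h' : q' ≤ q) :
    mrg n r' q' ≤ mrg n r q := by
  intro m i e he
  by_cases hm : m ≤ n
  · rw [mrg_lo hm] at he ⊢
    exact h m hm i e he
  · rw [mrg_hi (not_le.1 hm)] at he ⊢
    exact h' m i e he

theorem mrg_mrg_top {n : ℕ} {q u : Cnd} : mrg n (mrg n u ⊤) (mrg n q u) = u := by
  refine ext' fun m i => ?_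
  by_cases hm : m ≤ n
  · rw [mrg_lo hm, mrg_lo hm]
  · rw [mrg_hi (not_le.1 hm), mrg_hi (not_le.1 hm)]

/-- Pairs of a condition and a small set of coordinates. -/
abbrev QD (n : ℕ) : Type := Cnd × {D : Set I // #D ≤ 2 ^ kap n}

/-- The order of the pairs. -/
def QLe (n : ℕ) (a b : QD n) : Prop := Le n a.1 b.1 ∧ b.2.1 ⊆ a.2.1

section fusion

variable (n : ℕ) (p : Cnd) {Ξ : Type} (hΞ : #Ξ ≤ 2 ^ kap n) (Dec : Ξ → Set Cnd)
  (hdc : ∀ ξ, ∀ q ∈ Dec ξ, ∀ r ≤ q, r ∈ Dec ξ)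
  (hd : ∀ ξ, ∀ q ≤ p, ∃ r ≤ q, r ∈ Dec ξ)

/-- One step. -/
def Stp (n : ℕ) (p : Cnd) {Ξ : Type} (Dec : Ξ → Set Cnd) (b b' : QD n) : Prop :=
  ∀ ξ, ∀ r ∈ Low n b.2.1, LE n r p → ∃ r' ∈ Low n b'.2.1, r' ≤ r ∧ mrg n r' b'.1 ∈ Dec ξ

include hΞ hdc hd in
theorem exists_stp (b : QD n) (hb : Le n b.1 p) : ∃ b', QLe n b' b ∧ Stp n p Dec b b' := by
  classical
  obtain ⟨q, D, hD⟩ := b
  have hJ : #(Ξ × Low n D) ≤ 2 ^ kap n := by
    rw [mk_prod, lift_id, lift_id]
    refine (mul_le_mul' hΞ (card_low n D hD)).trans ?_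
    rw [mul_eq_self (aleph0_le_pow n)]
  obtain ⟨q', hq', h⟩ := exists_meet n q hJ
    (fun t q' => LE n t.2.1 p → ∃ r', (∀ m, n < m → ∀ i, r'.f m i = none) ∧ r' ≤ t.2.1 ∧
      mrg n r' q' ∈ Dec t.1) (by
    rintro ⟨ξ, r, hr⟩ q' hq'
    by_cases hL : LE n r p
    · have h1 : mrg n r q' ≤ p := by
        refine (mrg_le ?_).trans (hq'.1.trans hb.1)
        intro m hm i e he
        have h2 : Le n q' p := hq'.trans hb
        rw [h2.2 m hm i] at he
        exact hL m hm i e he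
      obtain ⟨u, hu, hu'⟩ := hd ξ _ h1
      refine ⟨mrg n q' u, ⟨?_, fun m hm i => mrg_lo hm i⟩, fun _ => ⟨mrg n u ⊤, ?_, ?_, ?_⟩⟩
      · intro m i e he
        by_cases hm : m ≤ n
        · rwa [mrg_lo hm]
        · rw [mrg_hi (not_le.1 hm)]
          refine hu m i e ?_
          rwa [mrg_hi (not_le.1 hm)]
      · intro m hm i
        rw [mrg_hi hm]
        rfl
      · intro m i e he
        by_cases hm : m ≤ n
        · rw [mrg_lo hm]
          refine hu m i e ?_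
          rwa [mrg_lo hm]
        · have h2 := hr.1 m (not_le.1 hm) i
          rw [h2] at he
          cases he
      · rw [mrg_mrg_top]
        exact hu'
    · exact ⟨q', Le.refl _ _, fun h => absurd h hL⟩) (by
    rintro ⟨ξ, r⟩ q1 q2 h1 h2 hL
    obtain ⟨r', h3, h4, h5⟩ := h1 hL
    exact ⟨r', h3, h4, hdc ξ _ h5 _ (mrg_mono (fun _ _ _ _ h => h) h2.1)⟩)
  choose F hF using h
  let D' : Set I := D ∪ ⋃ t : {t : Ξ × Low n D // LE n t.2.1 p}, (F t.1 t.2).spl n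
  have hD' : #D' ≤ 2 ^ kap n := by
    refine (mk_union_le _ _).trans (add_le_of_le (aleph0_le_pow n) hD ?_)
    refine (mk_iUnion_le _).trans ?_
    refine (mul_le_mul' ((mk_subtype_le _).trans hJ) (ciSup_le' fun t => ?_)).trans
      (mul_eq_self (aleph0_le_pow n)).le
    exact (card_spl n _).le.trans (Cardinal.cantor _).le
  refine ⟨(q', ⟨D', hD'⟩), ⟨hq', Set.subset_union_left⟩, fun ξ r hr hL => ?_⟩
  obtain ⟨h1, h2, h3⟩ := hF (ξ, ⟨r, hr⟩) hL
  refine ⟨F (ξ, ⟨r, hr⟩) hL, ⟨h1, fun m i hi => ?_⟩, h2, h3⟩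
  refine Or.inr (Set.mem_iUnion.2 ⟨⟨(ξ, ⟨r, hr⟩), hL⟩, m, ?_, hi⟩)
  by_contra hm
  exact hi (h1 m (not_le.1 hm) i)

theorem exists_lbQ {J : Type} (hJ : #J ≤ 2 ^ kap n) (F : J → QD n) (p : QD n)
    (hF : ∀ i j, QLe n (F i) (F j) ∨ QLe n (F j) (F i)) (hp : ∀ j, QLe n (F j) p) :
    ∃ b, QLe n b p ∧ ∀ j, QLe n b (F j) := by
  obtain ⟨q, h1, h2⟩ := exists_lb' n hJ (fun j => (F j).1) p.1
    (fun i j => (hF i j).imp (fun h => h.1) fun h => h.1) fun j => (hp j).1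
  refine ⟨(q, ⟨p.2.1 ∪ ⋃ j, (F j).2.1, ?_⟩), ⟨h1, Set.subset_union_left⟩, fun j => ⟨h2 j, ?_⟩⟩
  · refine (mk_union_le _ _).trans (add_le_of_le (aleph0_le_pow n) p.2.2 ?_)
    refine (mk_iUnion_le _).trans ?_
    exact (mul_le_mul' hJ (ciSup_le' fun j => (F j).2.2)).trans (mul_eq_self (aleph0_le_pow n)).le
  · exact fun i hi => Or.inr (Set.mem_iUnion.2 ⟨j, hi⟩)

include hΞ hdc hd in
/-- The fusion lemma. -/
theorem fusion : ∃ q, Le n q p ∧ ∃ A : Set Cnd, #A ≤ 2 ^ kap n ∧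
    (∀ r ∈ A, (∀ m, n < m → ∀ i, r.f m i = none) ∧ LE n r p) ∧
    ∀ ξ, ∀ s ≤ q, ∃ r ∈ A, mrg n r q ∈ Dec ξ ∧ ∃ t ≤ s, t ≤ mrg n r q := by
  classical
  have hp0 : #(p.spl n) ≤ 2 ^ kap n := (card_spl n p).le.trans (Cardinal.cantor _).le
  have htr : ∀ a b c : QD n, QLe n a b → QLe n b c → QLe n a c := fun a b c h h' =>
    ⟨h.1.trans h'.1, h'.2.trans h.2⟩
  have hrf : ∀ a : QD n, QLe n a a := fun a => ⟨Le.refl _ _, subset_rfl⟩
  obtain ⟨F, h1, h2, h3⟩ := exists_chain (J := K n) (· < ·) (QLe n) htr hrf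
    (fun _ b b' => Stp n p Dec b b') (p, ⟨p.spl n, hp0⟩)
    (fun j F hF hp => exists_lbQ n ((mk_subtype_le _).trans
      ((mk_K n).le.trans (Cardinal.cantor _).le)) F _ hF hp)
    (fun j b hb => exists_stp n p hΞ Dec hdc hd b hb.1)
  obtain ⟨b, hb, hb'⟩ := exists_lbQ n ((mk_K n).le.trans (Cardinal.cantor _).le) F _ (by
    intro i j
    rcases lt_trichotomy i j with h | h | h
    · exact Or.inr (h2 _ _ h)
    · subst h
      exact Or.inl (hrf _)
    · exact Or.inl (h2 _ _ h)) h1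
  let D : Set I := ⋃ j, (F j).2.1
  have hD : #D ≤ 2 ^ kap n := by
    refine (mk_iUnion_le _).trans ?_
    exact (mul_le_mul' ((mk_K n).le.trans (Cardinal.cantor _).le)
      (ciSup_le' fun j => (F j).2.2)).trans (mul_eq_self (aleph0_le_pow n)).le
  -- conditions with the support in `D` are handled
  have key : ∀ ξ, ∀ r ∈ Low n D, LE n r p → ∃ r' ∈ Low n D, r' ≤ r ∧ mrg n r' b.1 ∈ Dec ξ := by
    intro ξ r hr hL
    have h4 : ∀ i : r.spl n, ∃ j, i.1 ∈ (F j).2.1 := by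
      rintro ⟨i, m, hm, hi⟩
      exact Set.mem_iUnion.1 (hr.2 m i hi)
    choose J hJ using h4
    obtain ⟨j0, hj0⟩ := K_bdd n (card_spl n r) J
    obtain ⟨c, hc, hc1, hc2, hc3⟩ := h3 j0
    have h5 : r ∈ Low n c.2.1 := by
      refine ⟨hr.1, fun m i hi => ?_⟩
      have hm : m ≤ n := by
        by_contra hm
        exact hi (hr.1 m (not_le.1 hm) i)
      exact (hc1 _ (hj0 ⟨i, m, hm, hi⟩)).2 (hJ ⟨i, m, hm, hi⟩)
    obtain ⟨r', h6, h7, h8⟩ := hc3 ξ r h5 hL
    refine ⟨r', Low.mono (fun i hi => Set.mem_iUnion.2 ⟨j0, hi⟩) h6, h7, ?_⟩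
    exact hdc ξ _ h8 _ (mrg_mono (fun _ _ _ _ h => h) (hb' j0).1.1)
  have hpD : p.spl n ⊆ D := by
    obtain ⟨j0⟩ := (inferInstance : Nonempty (K n))
    exact (h1 j0).2.trans fun i hi => Set.mem_iUnion.2 ⟨j0, hi⟩
  refine ⟨b.1, hb.1, {r | r ∈ Low n D ∧ LE n r p}, ?_, fun r hr => ⟨hr.1.1, hr.2⟩, ?_⟩
  · exact (mk_le_mk_of_subset fun r hr => hr.1).trans (card_low n D hD)
  · intro ξ s hs
    have hsp : s ≤ p := hs.trans hb.1.1
    have hL : LE n (res n D s) p := by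
      intro m hm i e he
      rw [res_pos hm (hpD ⟨m, hm, by rw [he]; exact Option.some_ne_none _⟩)]
      exact hsp m i e he
    obtain ⟨r', h4, h5, h6⟩ := key ξ _ (res_low n D s) hL
    refine ⟨r', ⟨h4, (LE.of_le h5).trans hL⟩, h6, ?_⟩
    refine ⟨⟨fun m i => if m ≤ n then (r'.f m i).orElse fun _ => s.f m i else s.f m i, fun m => ?_⟩,
      ?_, ?_⟩
    · refine sm_of_subset' (S := r'.sp m ∪ s.sp m) (fun i hi => ?_) ?_
      · by_cases hm : m ≤ n
        · rw [if_pos hm] at hi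
          rcases h7 : r'.f m i with _ | e
          · rw [h7] at hi
            exact Or.inr hi
          · refine Or.inl ?_
            change r'.f m i ≠ none
            rw [h7]
            exact Option.some_ne_none _
        · rw [if_neg hm] at hi
          exact Or.inr hi
      · exact (mk_union_le _ _).trans_lt (add_lt_of_lt (aleph0_le_kap m) (r'.sm' m) (s.sm' m))
    · intro m i e he
      change (if m ≤ n then (r'.f m i).orElse fun _ => s.f m i else s.f m i) = some e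
      by_cases hm : m ≤ n
      · rw [if_pos hm]
        by_cases hi : i ∈ D
        · have h7 : (res n D s).f m i = some e := by rw [res_pos hm hi, he]
          rw [h5 m i e h7]
          rfl
        · have h7 : r'.f m i = none := by
            by_contra h8
            exact hi (h4.2 m i h8)
          rw [h7]
          exact he
      · rw [if_neg hm]
        exact he
    · intro m i e he
      change (if m ≤ n then (r'.f m i).orElse fun _ => s.f m i else s.f m i) = some e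
      by_cases hm : m ≤ n
      · rw [mrg_lo hm] at he
        rw [if_pos hm, he]
        rfl
      · rw [mrg_hi (not_le.1 hm)] at he
        rw [if_neg hm]
        exact hs m i e he

end fusion

end Cnd

end Pool.Agent.Q207.UL
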