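import Pool.Agent.W868.Hart

/-!
# Uniform ultrafilters in transitive models of ZF
-/

set_option autoImplicit false
set_option linter.unusedSectionVars false
set_option linter.unreachableTactic false
set_option linter.unusedTactic false

namespace Pool.Agent.Q207.UL

open Pool.Agent.W868
open ZFSet (pair)

/-- In the model `M`, the set `D` is an ultrafilter on the set `κ`. -/
def IsUf (M : Set ZFSet.{0}) (κ D : ZFSet.{0}) : Prop :=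
  D ∈ M ∧ (∀ A ∈ D, A ⊆ κ) ∧ κ ∈ D ∧ ∅ ∉ D ∧ (∀ A ∈ D, ∀ B ∈ D, A ∩ B ∈ D) ∧
    (∀ A ∈ D, ∀ B ∈ M, A ⊆ B → B ⊆ κ → B ∈ D) ∧ ∀ A ∈ M, A ⊆ κ → A ∈ D ∨ κ \ A ∈ D

/-- In the model `M`, the cardinal `κ` carries a uniform ultrafilter: an ultrafilter all the
elements of which are in `M` equinumerous with `κ`. -/
def Carries (M : Set ZFSet.{0}) (κ : ZFSet.{0}) : Prop :=
  ∃ D, IsUf M κ D ∧ ∀ A ∈ D, ∃ f ∈ M, IsBij A κ f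

/-- One step of the recursion. -/
noncomputable def Gst (κ Pw e : ZFSet.{0}) (_ g : ZFSet.{0}) : ZFSet.{0} :=
  ZFSet.sep (fun A => (∃ β ∈ κ, ∀ z ∈ κ, z ∈ β ∨ z ∈ A) ∨ ∃ p ∈ g, ∃ X ∈ Pw, pair (fs p) X ∈ e ∧
    (∀ Y ∈ sn p, ∃ z ∈ Y, z ∈ X) ∧ ∃ B ∈ sn p, ∀ z ∈ B, z ∈ X → z ∈ A) Pw

/-- The filters. -/
noncomputable def Fi (κ Pw e : ZFSet.{0}) : ZFSet.{0} → ZFSet.{0} :=
  wfF (fun z => z) ZFSet.mem_wf (Gst κ Pw e)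

section

variable {κ Pw e : ZFSet.{0}}

/-- The set `X` is added at the step `η`. -/
def Gd (κ Pw e η X : ZFSet.{0}) : Prop :=
  X ∈ Pw ∧ pair η X ∈ e ∧ ∀ Y ∈ Fi κ Pw e η, ∃ z ∈ Y, z ∈ X

theorem mem_Fi {ξ A : ZFSet.{0}} : A ∈ Fi κ Pw e ξ ↔ A ∈ Pw ∧
    ((∃ β ∈ κ, ∀ z ∈ κ, z ∈ β ∨ z ∈ A) ∨ ∃ η ∈ ξ, ∃ X, Gd κ Pw e η X ∧
      ∃ B ∈ Fi κ Pw e η, ∀ z ∈ B, z ∈ X → z ∈ A) := by
  have h : Fi κ Pw e ξ = Gst κ Pw e ξ (gr (Fi κ Pw e) ξ) := wfF_eq _ _ _ _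
  rw [h, Gst, ZFSet.mem_sep]
  refine and_congr_right fun _ => or_congr_right ?_
  constructor
  · rintro ⟨p, hp, X, hX, h1, h2, h3⟩
    obtain ⟨η, hη, rfl⟩ := mem_gr.1 hp
    rw [fs_pair] at h1
    rw [sn_pair] at h2 h3
    exact ⟨η, hη, X, ⟨hX, h1, h2⟩, h3⟩
  · rintro ⟨η, hη, X, ⟨hX, h1, h2⟩, h3⟩
    refine ⟨_, mem_gr.2 ⟨η, hη, rfl⟩, X, hX, ?_, ?_, ?_⟩
    · rwa [fs_pair]
    · rwa [sn_pair]
    · rwa [sn_pair]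

theorem Fi_mono {ξ ξ' : ZFSet.{0}} (h : ξ ⊆ ξ') {A : ZFSet.{0}} (hA : A ∈ Fi κ Pw e ξ) :
    A ∈ Fi κ Pw e ξ' := by
  rw [mem_Fi] at hA ⊢
  exact ⟨hA.1, hA.2.imp_right fun ⟨η, hη, h1⟩ => ⟨η, h hη, h1⟩⟩

theorem Fi_co {ξ A : ZFSet.{0}} (hA : A ∈ Pw) (h : ∃ β ∈ κ, ∀ z ∈ κ, z ∈ β ∨ z ∈ A) :
    A ∈ Fi κ Pw e ξ := mem_Fi.2 ⟨hA, Or.inl h⟩

theorem Fi_up {ξ A A' : ZFSet.{0}} (hA : A ∈ Fi κ Pw e ξ) (h : A ⊆ A') (hA' : A' ∈ Pw) :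
    A' ∈ Fi κ Pw e ξ := by
  rw [mem_Fi] at hA ⊢
  refine ⟨hA', hA.2.imp ?_ ?_⟩
  · rintro ⟨β, hβ, h1⟩
    exact ⟨β, hβ, fun z hz => (h1 z hz).imp_right fun h2 => h h2⟩
  · rintro ⟨η, hη, X, hX, B, hB, h1⟩
    exact ⟨η, hη, X, hX, B, hB, fun z hz hzX => h (h1 z hz hzX)⟩

theorem Fi_empty {ξ : ZFSet.{0}} : ∅ ∉ Fi κ Pw e ξ := by
  rw [mem_Fi]
  rintro ⟨-, ⟨β, hβ, h⟩ | ⟨η, -, X, hX, B, hB, h⟩⟩
  · rcases h β hβ with h1 | h1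
    · exact ZFSet.mem_irrefl _ h1
    · exact ZFSet.notMem_empty _ h1
  · obtain ⟨z, hz, hzX⟩ := hX.2.2 B hB
    exact ZFSet.notMem_empty _ (h z hz hzX)

theorem Fi_inter (hκ : κ.IsOrdinal) (hPw : ∀ A ∈ Pw, ∀ B ∈ Pw, A ∩ B ∈ Pw)
    (he : ∀ a X Y, pair a X ∈ e → pair a Y ∈ e → X = Y) : ∀ ξ : ZFSet.{0}, ξ.IsOrdinal →
    ∀ A ∈ Fi κ Pw e ξ, ∀ B ∈ Fi κ Pw e ξ, A ∩ B ∈ Fi κ Pw e ξ := by
  intro ξ
  induction ξ using ZFSet.inductionOn with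
  | _ ξ ih =>
  intro hξ
  -- the later set
  have key : ∀ η ∈ ξ, ∀ X, Gd κ Pw e η X → ∀ A ∈ Fi κ Pw e η, ∀ B ∈ Fi κ Pw e η,
      ∀ C ∈ Pw, (∀ z ∈ B, z ∈ X → z ∈ C) → A ∩ C ∈ Fi κ Pw e ξ := by
    intro η hη X hX A hA B hB C hC h
    have h1 := ih η hη (hξ.mem hη) A hA B hB
    refine mem_Fi.2 ⟨hPw _ (mem_Fi.1 hA).1 _ hC, Or.inr ⟨η, hη, X, hX, _, h1, fun z hz hzX => ?_⟩⟩
    rw [ZFSet.mem_inter] at hz ⊢
    exact ⟨hz.1, h z hz.2 hzX⟩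
  have hcomm : ∀ A B : ZFSet.{0}, A ∩ B = B ∩ A := by
    intro A B
    ext z
    rw [ZFSet.mem_inter, ZFSet.mem_inter, and_comm]
  intro A hA B hB
  obtain ⟨hAP, ⟨β, hβ, h1⟩ | ⟨η, hη, X, hX, A', hA', h1⟩⟩ := mem_Fi.1 hA
  · obtain ⟨hBP, ⟨γ, hγ, h2⟩ | ⟨ζ, hζ, Y, hY, B', hB', h2⟩⟩ := mem_Fi.1 hB
    · refine Fi_co (hPw _ hAP _ hBP) ?_
      rcases (hκ.mem hβ).mem_or_subset (hκ.mem hγ) with h3 | h3
      · refine ⟨γ, hγ, fun z hz => ?_⟩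
        rw [ZFSet.mem_inter]
        rcases h2 z hz with h4 | h4
        · exact Or.inl h4
        · rcases h1 z hz with h5 | h5
          · exact Or.inl ((hκ.mem hγ).mem_trans h5 h3)
          · exact Or.inr ⟨h5, h4⟩
      · refine ⟨β, hβ, fun z hz => ?_⟩
        rw [ZFSet.mem_inter]
        rcases h1 z hz with h4 | h4
        · exact Or.inl h4
        · rcases h2 z hz with h5 | h5
          · exact Or.inl (h3 h5)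
          · exact Or.inr ⟨h4, h5⟩
    · exact key ζ hζ Y hY A (Fi_co hAP ⟨β, hβ, h1⟩) B' hB' B hBP h2
  · obtain ⟨hBP, ⟨γ, hγ, h2⟩ | ⟨ζ, hζ, Y, hY, B', hB', h2⟩⟩ := mem_Fi.1 hB
    · rw [hcomm]
      exact key η hη X hX B (Fi_co hBP ⟨γ, hγ, h2⟩) A' hA' A hAP h1
    · rcases (hξ.mem hη).mem_trichotomous (hξ.mem hζ) with h3 | h3 | h3
      · exact key ζ hζ Y hY A (mem_Fi.2 ⟨hAP, Or.inr ⟨η, h3, X, hX, A', hA', h1⟩⟩) B' hB' B hBP h2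
      · subst h3
        obtain rfl := he _ _ _ hX.2.1 hY.2.1
        refine mem_Fi.2 ⟨hPw _ hAP _ hBP, Or.inr ⟨η, hη, X, hX, A' ∩ B',
          ih η hη (hξ.mem hη) A' hA' B' hB', fun z hz hzX => ?_⟩⟩
        rw [ZFSet.mem_inter] at hz ⊢
        exact ⟨h1 z hz.1 hzX, h2 z hz.2 hzX⟩
      · rw [hcomm]
        exact key η hη X hX B (mem_Fi.2 ⟨hBP, Or.inr ⟨ζ, h3, Y, hY, B', hB', h2⟩⟩) A' hA' A hAP h1

variable {M : Set ZFSet.{0}} (hM : IsZF M)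

include hM

theorem dfn_Fi (hκ : κ ∈ M) (hPw : Pw ∈ M) (he : e ∈ M) :
    DfnF M M fun w : Fin 1 → ZFSet.{0} => Fi κ Pw e (w 0) := by
  have hB := hM.base
  refine hM.memrec (G := Gst κ Pw e) ?_ fun z => wfF_eq _ _ _ _
  unfold Gst
  refine hM.sep' (Q := fun A v => (∃ β ∈ κ, ∀ z ∈ κ, z ∈ β ∨ z ∈ A) ∨ ∃ p ∈ v 1, ∃ X ∈ Pw,
    pair (fs p) X ∈ e ∧ (∀ Y ∈ sn p, ∃ z ∈ Y, z ∈ X) ∧ ∃ B ∈ sn p, ∀ z ∈ B, z ∈ X → z ∈ A)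
    (DfnF.const hPw) ?_
  (repeat' first
    | assumption
    | exact DfnF.proj _
    | exact DfnF.const (by assumption)
    | exact DfnF.const' (by first | assumption | trivial) (by first | assumption | trivial)
    | exact Dfn.prop _
    | apply Dfn.not | apply Dfn.and | apply Dfn.or | apply Dfn.imp | apply Dfn.iff
    | apply hB.bex | apply hB.ball | apply Dfn.ex | apply Dfn.all
    | apply Dfn.eq | apply Dfn.mem | apply hB.pair' | apply hM.fs' | apply hM.sn')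

theorem inter_mem {A B : ZFSet.{0}} (hA : A ∈ M) (hB : B ∈ M) : A ∩ B ∈ M := by
  have h := hM.sep_mem (Q := fun z => z ∈ B) (Dfn.mem (DfnF.proj 0) (DfnF.const hB)) hA
  have h1 : ZFSet.sep (fun z => z ∈ B) A = A ∩ B := by
    ext z
    rw [ZFSet.mem_sep, ZFSet.mem_inter]
  rwa [h1] at h

theorem diff_mem {A B : ZFSet.{0}} (hA : A ∈ M) (hB : B ∈ M) : A \ B ∈ M := by
  have h := hM.sep_mem (Q := fun z => ¬ z ∈ B) (Dfn.mem (DfnF.proj 0) (DfnF.const hB)).not hA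
  have h1 : ZFSet.sep (fun z => ¬ z ∈ B) A = A \ B := by
    ext z
    rw [ZFSet.mem_sep, ZFSet.mem_sdiff]
  rwa [h1] at h

/-- A sufficient condition for the existence of uniform ultrafilters. -/
theorem carries_of (hκM : κ ∈ M) (hκ : κ.IsOrdinal) (hne : κ.Nonempty) (heM : e ∈ M)
    (heo : ∀ p ∈ e, ∃ a X, p = pair a X ∧ a.IsOrdinal)
    (hef : ∀ a X Y, pair a X ∈ e → pair a Y ∈ e → X = Y)
    (hes : ∀ X ∈ M, X ⊆ κ → ∃ a ∈ M, pair a X ∈ e)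
    (hreg : ∀ α ∈ κ, ∀ f ∈ M, ZFSet.IsFunc α κ f → ∃ β ∈ κ, ∀ a b, pair a b ∈ f → b ∈ β) :
    Carries M κ := by
  have hB := hM.base
  obtain ⟨Pw, hPw, hPw'⟩ := hM.power κ hκM
  set θ : ZFSet.{0} := ZFSet.sUnion (im (fun p => sc (fs p)) e) with hθ
  have hθM : θ ∈ M := hM.union _ (hM.im_mem heM
    (hB.insert' (hM.fs' (DfnF.proj 0)) (hM.fs' (DfnF.proj 0))))
  have hθo : θ.IsOrdinal := by
    apply isOrdinal_sUnion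
    intro y hy
    obtain ⟨p, hp, rfl⟩ := mem_im.1 hy
    obtain ⟨a, X, rfl, ha⟩ := heo p hp
    rw [fs_pair]
    exact isOrdinal_sc ha
  have hθa : ∀ a X, pair a X ∈ e → a ∈ θ := by
    intro a X h
    refine ZFSet.mem_sUnion.2 ⟨_, mem_im.2 ⟨_, h, rfl⟩, ?_⟩
    rw [fs_pair]
    exact ZFSet.mem_insert _ _
  have hd := dfn_Fi hM hκM hPw heM
  have hDM : Fi κ Pw e θ ∈ M := hd.1 (fun _ => θ) fun _ => hθM
  have hsub : ∀ {A}, A ∈ Fi κ Pw e θ → A ∈ M ∧ A ⊆ κ := fun hA => (hPw' _).1 (mem_Fi.1 hA).1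
  obtain ⟨β0, hβ0⟩ := hne
  have hco : ∀ β ∈ κ, κ \ β ∈ Fi κ Pw e θ := by
    intro β hβ
    refine Fi_co ((hPw' _).2 ⟨diff_mem hM hκM (hM.trans _ hκM _ hβ), fun z hz =>
      (ZFSet.mem_sdiff.1 hz).1⟩) ⟨β, hβ, fun z hz => ?_⟩
    by_cases h : z ∈ β
    · exact Or.inl h
    · exact Or.inr (ZFSet.mem_sdiff.2 ⟨hz, h⟩)
  have hPi : ∀ A ∈ Pw, ∀ B ∈ Pw, A ∩ B ∈ Pw := by
    intro A hA B hB
    obtain ⟨h1, h2⟩ := (hPw' _).1 hA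
    obtain ⟨h3, -⟩ := (hPw' _).1 hB
    exact (hPw' _).2 ⟨inter_mem hM h1 h3, fun z hz => h2 (ZFSet.mem_inter.1 hz).1⟩
  have hint := Fi_inter hκ hPi hef θ hθo
  have hκP : κ ∈ Pw := (hPw' _).2 ⟨hκM, fun _ h => h⟩
  refine ⟨Fi κ Pw e θ, ⟨hDM, fun A hA => (hsub hA).2, Fi_co hκP ⟨β0, hβ0, fun z hz => Or.inr hz⟩,
    Fi_empty, hint, fun A hA B hB h1 h2 => Fi_up hA h1 ((hPw' _).2 ⟨hB, h2⟩), ?_⟩, ?_⟩
  · intro X hXM hX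
    obtain ⟨a, -, ha⟩ := hes X hXM hX
    have haθ := hθa a X ha
    have hXP : X ∈ Pw := (hPw' _).2 ⟨hXM, hX⟩
    have hCP : κ \ X ∈ Pw := (hPw' _).2 ⟨diff_mem hM hκM hXM, fun z hz => (ZFSet.mem_sdiff.1 hz).1⟩
    by_cases h : ∀ Y ∈ Fi κ Pw e a, ∃ z ∈ Y, z ∈ X
    · refine Or.inl (mem_Fi.2 ⟨hXP, Or.inr ⟨a, haθ, X, ⟨hXP, ha, h⟩, κ,
        Fi_co hκP ⟨β0, hβ0, fun z hz => Or.inr hz⟩, fun z _ hz => hz⟩⟩)
    · push Not at h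
      obtain ⟨Y, hY, h1⟩ := h
      refine Or.inr (Fi_mono (hθo.subset_of_mem haθ) (Fi_up hY (fun z hz => ?_) hCP))
      exact ZFSet.mem_sdiff.2 ⟨((hPw' _).1 (mem_Fi.1 hY).1).2 hz, h1 z hz⟩
  · intro A hA
    obtain ⟨hAM, hAκ⟩ := hsub hA
    have hAo : ∀ x ∈ A, x.IsOrdinal := fun x hx => hκ.mem (hAκ hx)
    have hoM := col_im_mem hM hAM
    have ho := isOrdinal_oty hAo
    rcases (ho.subset_iff_eq_or_mem hκ).1 (oty_subset hκ hAκ) with h | h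
    · have h1 := bij_oty hM hAM hAo
      rw [h] at h1
      exact h1
    · exfalso
      obtain ⟨f, hf, hfb⟩ := Bij.symm hM hAM hoM (bij_oty hM hAM hAo)
      have hff : ZFSet.IsFunc (oty A) κ f := by
        refine ⟨fun p hp => ?_, hfb.1.1.2⟩
        obtain ⟨a, ha, b, hb, rfl⟩ := ZFSet.mem_prod.1 (hfb.1.1.1 hp)
        exact ZFSet.pair_mem_prod.2 ⟨ha, hAκ hb⟩
      obtain ⟨β, hβ, h1⟩ := hreg _ h f hf hff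
      have h2 := hint A hA _ (hco β hβ)
      refine Fi_empty (κ := κ) (Pw := Pw) (e := e) (ξ := θ) ?_
      have h3 : A ∩ (κ \ β) = ∅ := by
        rw [ZFSet.eq_empty]
        intro z hz
        rw [ZFSet.mem_inter, ZFSet.mem_sdiff] at hz
        obtain ⟨a, -, ha⟩ := hfb.2 z hz.1
        exact hz.2.2 (h1 a z ha)
      rwa [h3] at h2

end

end Pool.Agent.Q207.UL
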