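import Pool.Agent.Q207.UL.Pow
import Pool.Agent.Q207.UL.Uf

/-!
# There is no uniform ultrafilter on `λ`
-/

set_option autoImplicit false
set_option linter.unusedSectionVars false
set_option linter.unreachableTactic false
set_option linter.unusedTactic false

namespace Pool.Agent.Q207.UL

open Pool.Agent.W868 Pool.Agent.W868.PName Pool.Agent.Q211.SY
open ZFSet (pair)
open Cardinal Cnd

/-- Regular ordinals are cardinals. -/
theorem not_inj_of_preg {M : Set ZFSet.{0}} (hM : IsZF M) {ν β : ZFSet.{0}} (hν : ν ∈ M)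
    (h : PReg M ν) (hβ : β ∈ ν) : ¬ Inj M ν β := by
  rintro ⟨f, hf, hi⟩
  have hB := hM.base
  have hβM := hM.trans _ hν _ hβ
  obtain ⟨r, hr, -, hr'⟩ := hM.rel_mem hβM hν (Q := fun b a => pair a b ∈ f) (by
    (repeat' first
      | assumption
      | exact DfnF.proj _
      | exact DfnF.const (by assumption)
      | exact DfnF.const' (by first | assumption | trivial) (by first | assumption | trivial)
      | exact Dfn.prop _
      | apply Dfn.not | apply Dfn.and | apply Dfn.or | apply Dfn.imp | apply Dfn.iff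
      | apply hB.bex | apply hB.ball | apply Dfn.ex | apply Dfn.all
      | apply Dfn.eq | apply Dfn.mem | apply hB.pair'))
  obtain ⟨γ, hγ, h1⟩ := h β hβ r hr (by
    intro a _ b _ c _ hb hc
    exact hi.2 _ _ _ ((hr' _ _).1 hb).2.2 ((hr' _ _).1 hc).2.2)
  obtain ⟨b, hb, h2⟩ := fun_exists hi.1 hγ
  exact ZFSet.mem_irrefl _ (h1 b hb γ hγ ((hr' _ _).2 ⟨hb, hγ, h2⟩))

/-- An element of the well-ordered set. -/
noncomputable def z0 (n : ℕ) : K n := Classical.arbitrary _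

/-- The name for the set of the coordinates `i` such that `z0 n` is in the value at `i` iff `b`. -/
noncomputable def Xn (n : ℕ) (b : Prop) : PName Cnd :=
  PName.mk {t : I × E n // (z0 n ∈ t.2 ↔ b)} (fun t => check (oz t.1.1))
    (fun t => sg n t.1.1 t.1.2)

theorem el_ax_Xn {n : ℕ} {b : Prop} {g : G} {z : PName Cnd} {c : Cnd} :
    El (ax g (Xn n b)) z c ↔ ∃ (i : I) (e : E n), (z0 n ∈ e ↔ b) ∧ z = check (oz i) ∧
      c = sg n i (g n i e) := by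
  rw [ax, el_act]
  constructor
  · rintro ⟨z, c, ⟨⟨⟨i, e⟩, he⟩, rfl, rfl⟩, rfl, rfl⟩
    refine ⟨i, e, he, ax_check g _, ?_⟩
    exact ap_sg g n i e
  · rintro ⟨i, e, he, rfl, rfl⟩
    exact ⟨_, _, ⟨⟨(i, e), he⟩, rfl, rfl⟩, (ax_check g _).symm, (ap_sg g n i e).symm⟩

theorem ax_Xn {n : ℕ} {b : Prop} {g : G} (hg : g ∈ Hs n) : ax g (Xn n b) = Xn n b := by
  unfold ax Xn
  rw [act]
  congr 1
  · funext t
    exact ax_check _ _
  · funext t
    change ap g (sg n t.1.1 t.1.2) = _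
    rw [ap_sg, hg n le_rfl]
    rfl

theorem hs_Xn (n : ℕ) (b : Prop) : SS.HS (Xn n b) := by
  refine SS.hs_iff.2 ⟨sym_iff.2 ⟨n, fun g hg p => ?_⟩, fun z c hz => ?_⟩
  · change Feq (ax g (Xn n b)) _ _
    rw [ax_Xn hg]
    exact Feq.refl _ _
  · obtain ⟨t, rfl, rfl⟩ := hz
    exact SS.hs_check _

theorem mem_ax_Xn {π : Pkg Cnd} {n : ℕ} {b : Prop} {g : G} {z : ZFSet.{0}} :
    z ∈ π.val (ax g (Xn n b)) ↔ ∃ (i : I) (e : E n) (k : ℕ), oz i ∈ π.Z ∧ (z0 n ∈ e ↔ b) ∧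
      (π.g k).f n i = some (g n i e) ∧ z = π.hat (oz i) := by
  rw [π.mem_val]
  constructor
  · rintro ⟨w, hw, c, hc, ⟨k, hk⟩, rfl⟩
    obtain ⟨i, e, he, rfl, rfl⟩ := el_ax_Xn.1 hc
    exact ⟨i, e, k, hw, he, le_sg.1 hk, rfl⟩
  · rintro ⟨i, e, k, hi, he, hk, rfl⟩
    exact ⟨_, hi, _, el_ax_Xn.2 ⟨i, e, he, rfl, rfl⟩, ⟨k, le_sg.2 hk⟩, rfl⟩

theorem ax_one (x : PName Cnd) : ax 1 x = x := by
  have h : SS.ac (1 : G) = 1 := SS.ac.map_one
  unfold ax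
  rw [h, act_one]

theorem mem_Xn {π : Pkg Cnd} {n : ℕ} {b : Prop} {z : ZFSet.{0}} :
    z ∈ π.val (Xn n b) ↔ ∃ (i : I) (e : E n) (k : ℕ), oz i ∈ π.Z ∧ (z0 n ∈ e ↔ b) ∧
      (π.g k).f n i = some e ∧ z = π.hat (oz i) := by
  have h := mem_ax_Xn (π := π) (n := n) (b := b) (g := 1) (z := z)
  rw [ax_one] at h
  exact h

theorem Xn_cover {n : ℕ} {π : Pkg Cnd} (hcl : SS.Cld π) (h1 : Xn n True ∈ π.N)
    (h2 : Xn n False ∈ π.N) {z : ZFSet.{0}} (hz : z ∈ π.hat Lz) :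
    z ∈ π.val (Xn n True) ∨ z ∈ π.val (Xn n False) := by
  obtain ⟨y, hy, hyZ, rfl⟩ := π.mem_hat.1 hz
  obtain ⟨i, rfl⟩ := mem_Lz.1 hy
  have hud : UD fun _ (v : Fin 3 → ZFSet.{0}) => v 0 ∈ v 1 ∨ v 0 ∈ v 2 := by
    (repeat' first
      | assumption
      | exact UF.proj _
      | exact UD.prop _
      | apply UD.not | apply UD.and | apply UD.or | apply UD.imp | apply UD.iff
      | apply UD.eq | apply UD.mem | apply UF.pair)
  refine frc_all hud (x := ![check (oz i), Xn n True, Xn n False]) ?_ ?_ π hcl ?_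
  · intro i
    fin_cases i
    · exact SS.hs_check _
    · exact hs_Xn _ _
    · exact hs_Xn _ _
  · intro q
    obtain ⟨s, hs, e, he⟩ : ∃ s ≤ q, ∃ e, s.f n i = some e := by
      rcases h : q.f n i with _ | e
      · obtain ⟨s, hs, h'⟩ := exists_add h (∅ : E n)
        exact ⟨s, hs, _, h'⟩
      · exact ⟨q, le_rfl, e, h⟩
    refine ⟨s, hs, ∅, Set.countable_empty, ?_⟩
    rintro π hcl hN - ⟨m, hm⟩
    have hi : oz i ∈ π.Z := hN 0
    change π.hat (oz i) ∈ π.val (Xn n True) ∨ π.hat (oz i) ∈ π.val (Xn n False)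
    by_cases h : z0 n ∈ e
    · exact Or.inl (mem_Xn.2 ⟨i, e, m, hi, iff_of_true h trivial, hm n i e he, rfl⟩)
    · exact Or.inr (mem_Xn.2 ⟨i, e, m, hi, iff_of_false h id, hm n i e he, rfl⟩)
  · intro j
    fin_cases j
    · exact hyZ
    · exact h1
    · exact h2

theorem Xn_sub {n : ℕ} {b : Prop} {π : Pkg Cnd} : π.val (Xn n b) ⊆ π.hat Lz := by
  intro z hz
  obtain ⟨i, e, k, hi, -, -, rfl⟩ := mem_Xn.1 hz
  exact π.mem_hat.2 ⟨_, mem_Lz.2 ⟨i, rfl⟩, hi, rfl⟩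

open Classical in
/-- The automorphism that flips the values at the coordinates outside of the support of `q`. -/
noncomputable def flp (n : ℕ) (q : Cnd) : G := fun m i =>
  if m = n ∧ q.f m i = none then Function.Involutive.toPerm compl compl_involutive else 1

theorem flp_mem (k : ℕ) (q : Cnd) : flp (k + 1) q ∈ Hs k := by
  intro m hm
  funext i
  refine if_neg fun h => ?_
  have := h.1
  omega

theorem ap_flp (n : ℕ) (q : Cnd) : ap (flp n q) q = q := by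
  refine ext' fun m i => ?_
  rw [ap_f]
  rcases h : q.f m i with _ | e
  · rfl
  · have h1 : flp n q m i = 1 := by
      refine if_neg fun h2 => ?_
      rw [h2.2] at h
      cases h
    rw [h1]
    rfl

theorem ud_r2 : UD fun M (v : Fin 2 → ZFSet.{0}) => ∀ A ∈ v 0, ∀ B ∈ v 0, ∀ C ∈ M,
    (∀ z ∈ A, z ∈ B → z ∈ C) → Inj M (v 1) C := by
  unfold Inj
  (repeat' first
    | assumption
    | exact UF.proj _
    | exact UF.om
    | exact UD.prop _
    | exact UD.isInj (UF.proj _) (UF.proj _) (UF.proj _)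
    | apply UD.not | apply UD.and | apply UD.or | apply UD.imp | apply UD.iff
    | apply UD.bex | apply UD.ball | apply UD.ex | apply UD.all
    | apply UD.eq | apply UD.mem | apply UF.pair)

theorem exists_small {n : ℕ} (q : Cnd) : ∃ B f : ZFSet.{0}, (∀ i, q.f n i ≠ none → oz i ∈ B) ∧
    IsInj B (Kz n) f := by
  have h1 : #(q.sp n) ≤ #(K n) := by
    rw [mk_K]
    exact (q.sm' n).le
  obtain ⟨⟨F, hF⟩⟩ := h1
  refine ⟨ZFSet.range fun i : q.sp n => oz i.1,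
    ZFSet.range fun i : q.sp n => pair (oz i.1) (oz (F i)), ?_, ⟨?_, ?_⟩, ?_⟩
  · intro i hi
    exact ZFSet.mem_range.2 ⟨⟨i, hi⟩, rfl⟩
  · intro z hz
    obtain ⟨i, rfl⟩ := ZFSet.mem_range.1 hz
    exact ZFSet.pair_mem_prod.2 ⟨ZFSet.mem_range.2 ⟨i, rfl⟩, mem_Kz.2 ⟨_, rfl⟩⟩
  · intro z hz
    obtain ⟨i, rfl⟩ := ZFSet.mem_range.1 hz
    refine ⟨oz (F i), ZFSet.mem_range.2 ⟨i, rfl⟩, fun w hw => ?_⟩
    obtain ⟨j, h⟩ := ZFSet.mem_range.1 hw
    obtain ⟨h2, rfl⟩ := ZFSet.pair_inj.1 h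
    rw [Subtype.ext (oz_inj h2)]
  · intro a b c ha hb
    obtain ⟨i, h⟩ := ZFSet.mem_range.1 ha
    obtain ⟨j, h'⟩ := ZFSet.mem_range.1 hb
    obtain ⟨rfl, rfl⟩ := ZFSet.pair_inj.1 h
    obtain ⟨rfl, h3⟩ := ZFSet.pair_inj.1 h'
    rw [hF (oz_inj h3)]

/-- There is no uniform ultrafilter on `λ` in the models. -/
theorem not_carries {π : Pkg Cnd} (hcl : SS.Cld π) (hL : Lz ∈ π.Z)
    (hX : ∀ n, Xn n True ∈ π.N ∧ Xn n False ∈ π.N) : ¬ Carries (SS.Ms π) (π.hat Lz) := by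
  rintro ⟨D, ⟨hDM, -, -, -, hDi, hDu, hDm⟩, hDb⟩
  have hM := T_ZF.isZF hcl
  have hLM : π.hat Lz ∈ SS.Ms π := Sys.mem_Ms hL (SS.hs_check _)
  obtain ⟨d, ⟨hdN, hd⟩, rfl⟩ := hDM
  obtain ⟨k, hk⟩ := sym_iff.1 hd.sym
  set n := k + 1 with hn
  have hd2 : ∀ i, SS.HS ((![d, check Lz] : Fin 2 → PName Cnd) i) := by
    intro i
    fin_cases i
    · exact hd
    · exact SS.hs_check _
  -- the property of the ultrafilter that is used
  obtain ⟨j, hj⟩ := (Sys.frc_iff ud_r2 hcl (x := ![d, check Lz]) (by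
    intro i
    refine ⟨?_, hd2 i⟩
    fin_cases i
    · exact hdN
    · exact hL)).1 (by
    intro A hA B hB C hC h
    change Inj (SS.Ms π) (π.hat Lz) C
    have h1 := hDi A hA B hB
    have hDM : π.val d ∈ SS.Ms π := Sys.mem_Ms hdN hd
    have h2 : A ∩ B ∈ SS.Ms π := hM.trans _ hDM _ h1
    obtain ⟨f, hf, hfb⟩ := hDb _ h1
    have h3 := (Bij.symm hM h2 hLM ⟨f, hf, hfb⟩).inj
    refine Inj.trans hM hLM hC h3 (Inj.of_subset hM h2 hC fun z hz => ?_)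
    rw [ZFSet.mem_inter] at hz
    exact h z hz.1 hz.2)
  -- one of the two sets is in the ultrafilter
  obtain ⟨b, hbN, hb⟩ : ∃ b : Prop, Xn n b ∈ π.N ∧ π.val (Xn n b) ∈ π.val d := by
    have hT := Sys.mem_Ms (hX n).1 (hs_Xn n True)
    have hF := Sys.mem_Ms (hX n).2 (hs_Xn n False)
    rcases hDm _ hT Xn_sub with h | h
    · exact ⟨True, (hX n).1, h⟩
    · refine ⟨False, (hX n).2, hDu _ h _ hF (fun z hz => ?_) Xn_sub⟩
      rw [ZFSet.mem_sdiff] at hz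
      exact (Xn_cover hcl (hX n).1 (hX n).2 hz.1).resolve_left hz.2
  obtain ⟨j', hj'⟩ := (π.val_mem_iff hbN hdN).1 hb
  set q : Cnd := π.g (max j j') with hq
  have hq1 : SS.Frc ud_r2 ![d, check Lz] q := hj.mono (π.g_le_left j j')
  have hq2 : Fmem (Xn n b) d q := hj'.mono (π.g_le_right j j')
  set g : G := flp n q with hg
  have hgk : g ∈ Hs k := flp_mem k q
  have hq3 : Fmem (ax g (Xn n b)) d q := by
    have h1 := fmem_act' (e := SS.ac g) hq2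
    change Fmem (ax g (Xn n b)) (ax g d) (ap g q) at h1
    have h2 : ap g q = q := ap_flp n q
    rw [h2] at h1
    exact fmem_congr (Feq.refl _ _) (hk g hgk _) h1
  obtain ⟨B, f, hB, hf⟩ := exists_small (n := n) q
  obtain ⟨ρ, h1, h2, h3, -⟩ := Sys.exists_cld SS
    ({d, Xn n b, ax g (Xn n b), check Lz, check B, check f, check (Kz n), check (Kz (n + 1))} :
      Set (PName Cnd)) (Set.toFinite _).countable ∅ Set.countable_empty q
  have e1 : d ∈ ρ.N := h1 (by simp)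
  have e2 : Xn n b ∈ ρ.N := h1 (by simp)
  have e3 : ax g (Xn n b) ∈ ρ.N := h1 (by simp)
  have e4 : Lz ∈ ρ.Z := h1 (by simp)
  have e5 : B ∈ ρ.Z := h1 (by simp)
  have e6 : f ∈ ρ.Z := h1 (by simp)
  have e7 : Kz n ∈ ρ.Z := h1 (by simp)
  have e8 : Kz (n + 1) ∈ ρ.Z := h1 (by simp)
  have hMr := T_ZF.isZF h3
  have hc : ∀ {x : ZFSet.{0}}, x ∈ ρ.Z → ρ.hat x ∈ SS.Ms ρ := fun hx =>
    Sys.mem_Ms hx (SS.hs_check _)
  have h4 := (Sys.frc_sem hd2).1 hq1 ρ h3 (by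
    intro i
    fin_cases i
    · exact e1
    · exact e4) ⟨0, h2.le⟩
  have h5 : Inj (SS.Ms ρ) (ρ.hat Lz) (ρ.hat B) := by
    refine h4 (ρ.val (Xn n b)) ((ρ.val_mem_iff e2 e1).2 ⟨0, h2 ▸ hq2⟩) (ρ.val (ax g (Xn n b)))
      ((ρ.val_mem_iff e3 e1).2 ⟨0, h2 ▸ hq3⟩) (ρ.hat B) (hc e5) ?_
    intro z hz hz'
    obtain ⟨i, e, m, hi, he, hm, rfl⟩ := mem_Xn.1 hz
    obtain ⟨i', e', m', hi', he', hm', h6⟩ := mem_ax_Xn.1 hz'
    obtain rfl := oz_inj ((ρ.hat_inj hi hi').1 h6)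
    have h7 : e = g n i e' := gen_uniq hm hm'
    refine (ρ.hat_mem_hat hi e5).2 (hB i fun h8 => ?_)
    have h9 : g n i = Function.Involutive.toPerm compl compl_involutive := if_pos ⟨rfl, h8⟩
    have h10 : e = e'ᶜ := by
      rw [h7, h9]
      rfl
    rw [h10, Set.mem_compl_iff] at he
    tauto
  have h6 : Inj (SS.Ms ρ) (ρ.hat B) (ρ.hat (Kz n)) :=
    ⟨ρ.hat f, hc e6, ρ.hat_isInj e5 e7 e6 hf⟩
  have h7 : Inj (SS.Ms ρ) (ρ.hat (Kz (n + 1))) (ρ.hat (Kz n)) := by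
    refine Inj.trans hMr (hc e8) (hc e7) (Inj.of_subset hMr (hc e8) (hc e4) ?_)
      (Inj.trans hMr (hc e4) (hc e7) h5 h6)
    exact ρ.hat_subset (Kz_sub_Lz _)
  refine not_inj_of_preg hMr (hc e8) (reg_lo n h3 e8) ?_ h7
  refine (ρ.hat_mem_hat e7 e8).2 (Ordinal.toZFSet_mem_toZFSet_iff.2 ?_)
  exact Cardinal.ord_lt_ord.2 (kap_lt_succ n)

end Pool.Agent.Q207.UL
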