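import Pool.Agent.Q207.UL.Lam

/-!
# The model
-/

set_option autoImplicit false
set_option linter.unusedSectionVars false
set_option linter.unreachableTactic false
set_option linter.unusedTactic false

namespace Pool.Agent.Q207.UL

open Pool.Agent.W868 Pool.Agent.W868.PName Pool.Agent.Q211.SY
open ZFSet (pair)
open Cardinal Cnd

/-- In the model `M`, the set `κ` is a regular cardinal: an infinite cardinal such that all
functions from elements of `κ` to `κ` are bounded. -/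
def IsReg (M : Set ZFSet.{0}) (κ : ZFSet.{0}) : Prop :=
  IsInfCard M κ ∧
    ∀ α ∈ κ, ∀ f ∈ M, ZFSet.IsFunc α κ f → ∃ β ∈ κ, ∀ a b, pair a b ∈ f → b ∈ β

theorem isCard_of_preg {M : Set ZFSet.{0}} (hM : IsZF M) {ν : ZFSet.{0}} (hν : ν ∈ M)
    (ho : ν.IsOrdinal) (h : PReg M ν) : IsCard M ν :=
  ⟨hν, ho, fun _ hβ => not_inj_of_preg hM hν h hβ⟩

theorem bd_of_preg {M : Set ZFSet.{0}} {ν : ZFSet.{0}} (h : PReg M ν) :
    ∀ α ∈ ν, ∀ f ∈ M, ZFSet.IsFunc α ν f → ∃ β ∈ ν, ∀ a b, pair a b ∈ f → b ∈ β := by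
  intro α hα f hf hff
  obtain ⟨β, hβ, h1⟩ := h α hα f hf fun a _ b _ c _ hb hc => fun_unique hff hb hc
  refine ⟨β, hβ, fun a b hab => ?_⟩
  obtain ⟨ha, hb⟩ := ZFSet.pair_mem_prod.1 (hff.1 hab)
  exact h1 a ha b hb hab

theorem nat_toZFSet (n : ℕ) : nat n = (n : Ordinal.{0}).toZFSet := by
  induction n with
  | zero =>
    rw [Nat.cast_zero, Ordinal.toZFSet_zero]
    rfl
  | succ n ih =>
    rw [Nat.cast_succ, Ordinal.toZFSet_add_one, ← ih]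
    rfl

theorem Kz_zero : Kz 0 = ZFSet.omega := by
  ext z
  rw [Kz, Ordinal.mem_toZFSet_iff, mem_omega_iff]
  constructor
  · rintro ⟨a, ha, rfl⟩
    have h1 : a < Ordinal.omega0 := by
      rw [kap, Cardinal.ord_aleph0] at ha
      exact ha
    obtain ⟨n, rfl⟩ := Ordinal.lt_omega0.1 h1
    exact ⟨n, (nat_toZFSet n).symm⟩
  · rintro ⟨n, rfl⟩
    refine ⟨n, ?_, (nat_toZFSet n).symm⟩
    rw [kap, Cardinal.ord_aleph0]
    exact Ordinal.natCast_lt_omega0 n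

theorem preg_omega (M : Set ZFSet.{0}) : PReg M ZFSet.omega := by
  classical
  intro α hα f _ hf
  obtain ⟨m, rfl⟩ := mem_omega_iff.1 hα
  let F : ℕ → ℕ := fun i => if h : ∃ k, pair (nat i) (nat k) ∈ f then h.choose else 0
  refine ⟨nat ((Finset.range m).sup F + 1), mem_omega_iff.2 ⟨_, rfl⟩, ?_⟩
  intro a ha b hb hab
  obtain ⟨i, hi, rfl⟩ := mem_nat_iff.1 ha
  obtain ⟨k, rfl⟩ := mem_omega_iff.1 hb
  have h : ∃ k, pair (nat i) (nat k) ∈ f := ⟨k, hab⟩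
  have h1 : F i = h.choose := dif_pos h
  have h2 : nat k = nat h.choose :=
    hf _ ha _ hb _ (mem_omega_iff.2 ⟨_, rfl⟩) hab h.choose_spec
  rw [h2, ← h1]
  refine nat_mem_nat.2 ?_
  exact Nat.lt_succ_of_le (Finset.le_sup (f := F) (Finset.mem_range.2 hi))

/-- The cardinals `κ i` with `i ∈ α`. -/
noncomputable def Sα (α : ZFSet.{0}) : ZFSet.{0} :=
  ZFSet.range fun i : {i : ℕ // nat i ∈ α} => Kz i.1

/-- The enumeration of the cardinals `κ i` with `i ∈ α`. -/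
noncomputable def Fα (α : ZFSet.{0}) : ZFSet.{0} :=
  ZFSet.range fun i : {i : ℕ // nat i ∈ α} => pair (nat i.1) (Kz i.1)

/-- The packages that contain the relevant names. -/
structure IsMod (π : Pkg Cnd) : Prop where
  cl : SS.Cld π
  kz : ∀ n, Kz n ∈ π.Z
  lz : Lz ∈ π.Z
  xn : ∀ n, Xn n True ∈ π.N ∧ Xn n False ∈ π.N
  en : ∀ n, En n ∈ π.N
  sn : ∀ n, Sα (nat n) ∈ π.Z ∧ Fα (nat n) ∈ π.Z
  so : Sα ZFSet.omega ∈ π.Z ∧ Fα ZFSet.omega ∈ π.Z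

theorem exists_mod : ∃ π : Pkg Cnd, IsMod π := by
  obtain ⟨π, h1, -, h3, -⟩ := Sys.exists_cld SS
    ({check Lz, check (Sα ZFSet.omega), check (Fα ZFSet.omega)} ∪
      ((Set.range fun n => check (Kz n)) ∪ ((Set.range fun n => Xn n True) ∪
      ((Set.range fun n => Xn n False) ∪ ((Set.range En) ∪
      ((Set.range fun n => check (Sα (nat n))) ∪ (Set.range fun n => check (Fα (nat n)))))))))
    ((Set.toFinite _).countable.union ((Set.countable_range _).union ((Set.countable_range _).union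
      ((Set.countable_range _).union ((Set.countable_range _).union
      ((Set.countable_range _).union (Set.countable_range _))))))) ∅ Set.countable_empty ⊤
  refine ⟨π, h3, fun n => ?_, ?_, fun n => ⟨?_, ?_⟩, fun n => ?_, fun n => ⟨?_, ?_⟩, ?_, ?_⟩
  · exact h1 (Or.inr (Or.inl ⟨n, rfl⟩))
  · exact h1 (Or.inl (by simp))
  · exact h1 (Or.inr (Or.inr (Or.inl ⟨n, rfl⟩)))
  · exact h1 (Or.inr (Or.inr (Or.inr (Or.inl ⟨n, rfl⟩))))
  · exact h1 (Or.inr (Or.inr (Or.inr (Or.inr (Or.inl ⟨n, rfl⟩)))))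
  · exact h1 (Or.inr (Or.inr (Or.inr (Or.inr (Or.inr (Or.inl ⟨n, rfl⟩))))))
  · exact h1 (Or.inr (Or.inr (Or.inr (Or.inr (Or.inr (Or.inr ⟨n, rfl⟩))))))
  · exact h1 (Or.inl (by simp))
  · exact h1 (Or.inl (by simp))

theorem Kz_mem_Kz {m n : ℕ} : Kz m ∈ Kz n ↔ m < n := by
  rw [Kz, Kz, Ordinal.toZFSet_mem_toZFSet_iff, Cardinal.ord_lt_ord]
  exact kap_strictMono.lt_iff_lt

theorem Kz_mem_Lz (n : ℕ) : Kz n ∈ Lz :=
  Ordinal.toZFSet_mem_toZFSet_iff.2 (Cardinal.ord_lt_ord.2 (kap_lt_lam n))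

theorem Kz_inj {m n : ℕ} (h : Kz m = Kz n) : m = n := by
  rcases lt_trichotomy m n with h1 | h1 | h1
  · have h2 := Kz_mem_Kz.2 h1
    rw [h] at h2
    exact absurd h2 (ZFSet.mem_irrefl _)
  · exact h1
  · have h2 := Kz_mem_Kz.2 h1
    rw [h] at h2
    exact absurd h2 (ZFSet.mem_irrefl _)

theorem Kz_ord (n : ℕ) : (Kz n).IsOrdinal := ZFSet.isOrdinal_toZFSet _

theorem Lz_ord : Lz.IsOrdinal := ZFSet.isOrdinal_toZFSet _

namespace IsMod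

variable {π : Pkg Cnd} (h : IsMod π)

include h

theorem zf : IsZF (SS.Ms π) := T_ZF.isZF h.cl

theorem hatM {x : ZFSet.{0}} (hx : x ∈ π.Z) : π.hat x ∈ SS.Ms π := Sys.mem_Ms hx (SS.hs_check _)

theorem V_sub {x : ZFSet.{0}} (hx : x ∈ π.V) : x ∈ SS.Ms π := by
  obtain ⟨y, hy, rfl⟩ := hx
  exact h.hatM hy

/-- The ordinals of the model. -/
theorem ord_form {x : ZFSet.{0}} (hx : x ∈ SS.Ms π) (ho : x.IsOrdinal) :
    ∃ α : Ordinal.{0}, α.toZFSet ∈ π.Z ∧ x = π.hat α.toZFSet := by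
  have h1 : x ∈ π.W := by
    obtain ⟨y, ⟨hy, -⟩, rfl⟩ := hx
    exact ⟨y, hy, rfl⟩
  obtain ⟨y, hy, rfl⟩ := π.ord_V ho h1
  have h2 : y.IsOrdinal := by
    -- the set `y` is an ordinal since its value is
    by_contra hn
    have h3 : UD fun _ (v : Fin 1 → ZFSet.{0}) => ¬ ((∀ y ∈ v 0, ∀ z ∈ y, z ∈ v 0) ∧
        ∀ y ∈ v 0, ∀ z ∈ y, ∀ u ∈ z, u ∈ y) := by
      (repeat' first
        | assumption
        | exact UF.proj _
        | exact UD.prop _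
        | apply UD.not | apply UD.and | apply UD.or | apply UD.imp | apply UD.iff
        | apply UD.bex | apply UD.ball | apply UD.ex | apply UD.all
        | apply UD.eq | apply UD.mem | apply UF.pair)
    have h4 : ¬ ((∀ a ∈ y, ∀ b ∈ a, b ∈ y) ∧ ∀ a ∈ y, ∀ b ∈ a, ∀ c ∈ b, c ∈ a) := by
      rintro ⟨h5, h6⟩
      exact hn ⟨fun a ha b hb => h5 a ha b hb, fun {a b c} h7 h8 h9 => h6 c h9 b h8 a h7⟩
    have h5 : ∃ a b c : ZFSet.{0}, ¬ ((a ∈ y → b ∈ a → b ∈ y) ∧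
        (a ∈ y → b ∈ a → c ∈ b → c ∈ a)) := by
      by_contra h6
      push Not at h6
      exact h4 ⟨fun a ha b hb => (h6 a b a).1 ha hb, fun a ha b hb c hc => (h6 a b c).2 ha hb hc⟩
    obtain ⟨a, b, c, h6⟩ := h5
    refine frc_all h3 (x := ![check y]) ?_ ?_ π h.cl ?_ ?_
    · intro i
      fin_cases i
      exact SS.hs_check _
    · intro q
      refine ⟨q, le_rfl, {check a, check b, check c}, (Set.toFinite _).countable, ?_⟩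
      rintro ρ - hN hA - ⟨h7, h8⟩
      have hy : y ∈ ρ.Z := hN 0
      have ha : a ∈ ρ.Z := hA (by simp)
      have hb : b ∈ ρ.Z := hA (by simp)
      have hc : c ∈ ρ.Z := hA (by simp)
      change ∀ x ∈ ρ.hat y, ∀ z ∈ x, z ∈ ρ.hat y at h7
      change ∀ x ∈ ρ.hat y, ∀ z ∈ x, ∀ u ∈ z, u ∈ x at h8
      refine h6 ⟨fun h9 h10 => ?_, fun h9 h10 h11 => ?_⟩
      · exact (ρ.hat_mem_hat hb hy).1 (h7 _ ((ρ.hat_mem_hat ha hy).2 h9) _
          ((ρ.hat_mem_hat hb ha).2 h10))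
      · exact (ρ.hat_mem_hat hc ha).1 (h8 _ ((ρ.hat_mem_hat ha hy).2 h9) _
          ((ρ.hat_mem_hat hb ha).2 h10) _ ((ρ.hat_mem_hat hc hb).2 h11))
    · intro i
      fin_cases i
      exact hy
    · exact ⟨fun a ha b hb => ho.mem_trans hb ha, fun a ha b hb c hc => ho.mem_trans' hc hb ha⟩
  refine ⟨y.rank, ?_, ?_⟩
  · rwa [h2.toZFSet_rank_eq]
  · rw [h2.toZFSet_rank_eq]

theorem preg_Kz (n : ℕ) : PReg (SS.Ms π) (π.hat (Kz n)) := by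
  cases n with
  | zero =>
    rw [Kz_zero, π.hat_omega]
    exact preg_omega _
  | succ n => exact reg_lo n h.cl (h.kz _)

theorem hat_ord {x : ZFSet.{0}} (hx : x.IsOrdinal) : (π.hat x).IsOrdinal := π.hat_isOrdinal hx

theorem card_Kz (n : ℕ) : IsCard (SS.Ms π) (π.hat (Kz n)) :=
  isCard_of_preg h.zf (h.hatM (h.kz n)) (h.hat_ord (Kz_ord n)) (h.preg_Kz n)

theorem omega_sub {x : ZFSet.{0}} (hx : Kz 0 ⊆ x) : ZFSet.omega ⊆ π.hat x := by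
  rw [← π.hat_omega, ← Kz_zero]
  exact π.hat_subset hx

theorem Kz_sub {n : ℕ} : Kz 0 ⊆ Kz n :=
  Ordinal.toZFSet_subset_toZFSet_iff.2 (Cardinal.ord_le_ord.2 (kap_strictMono.monotone n.zero_le))

theorem inf_Kz (n : ℕ) : IsInfCard (SS.Ms π) (π.hat (Kz n)) :=
  ⟨h.card_Kz n, h.omega_sub (Kz_sub h)⟩

theorem reg_Kz (n : ℕ) : IsReg (SS.Ms π) (π.hat (Kz n)) := ⟨h.inf_Kz n, bd_of_preg (h.preg_Kz n)⟩

theorem inf_Lz : IsInfCard (SS.Ms π) (π.hat Lz) := by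
  refine ⟨⟨h.hatM h.lz, h.hat_ord Lz_ord, ?_⟩, h.omega_sub (Kz_sub_Lz 0)⟩
  intro β hβ hi
  obtain ⟨y, hy, hyZ, rfl⟩ := π.mem_hat.1 hβ
  obtain ⟨α, hα, rfl⟩ := Ordinal.mem_toZFSet_iff.1 hy
  obtain ⟨n, hn⟩ := exists_kap_of_lt (Cardinal.lt_ord.1 hα)
  have h1 : α.toZFSet ∈ Kz n := Ordinal.toZFSet_mem_toZFSet_iff.2 (Cardinal.lt_ord.2 hn)
  refine not_inj_of_preg h.zf (h.hatM (h.kz n)) (h.preg_Kz n)
    ((π.hat_mem_hat hyZ (h.kz n)).2 h1) ?_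
  exact Inj.trans h.zf (h.hatM (h.kz n)) (h.hatM hyZ)
    (Inj.of_subset h.zf (h.hatM (h.kz n)) (h.hatM h.lz) (π.hat_subset (Kz_sub_Lz n))) hi

/-- The infinite cardinals of the model below `λ`. -/
theorem eq_Kz {μ : ZFSet.{0}} (hμ : IsInfCard (SS.Ms π) μ) (hμL : μ ∈ π.hat Lz) :
    ∃ n, μ = π.hat (Kz n) := by
  classical
  obtain ⟨y, hy, hyZ, rfl⟩ := π.mem_hat.1 hμL
  obtain ⟨α, hα, rfl⟩ := Ordinal.mem_toZFSet_iff.1 hy
  have hex : ∃ n, α.toZFSet ∈ Kz n := by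
    obtain ⟨n, hn⟩ := exists_kap_of_lt (Cardinal.lt_ord.1 hα)
    exact ⟨n, Ordinal.toZFSet_mem_toZFSet_iff.2 (Cardinal.lt_ord.2 hn)⟩
  have h1 := Nat.find_spec hex
  have h2 := fun m (hm : m < Nat.find hex) => Nat.find_min hex hm
  rcases h3 : Nat.find hex with _ | m
  · rw [h3, Kz_zero] at h1
    have h4 := (π.hat_mem_hat hyZ π.omega_Z).2 h1
    rw [π.hat_omega] at h4
    exact absurd (hμ.2 h4) (ZFSet.mem_irrefl _)
  · rw [h3] at h1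
    have h4 := h2 m (by omega)
    rcases (ZFSet.isOrdinal_toZFSet α).mem_trichotomous (Kz_ord m) with h5 | h5 | h5
    · exact absurd h5 h4
    · exact ⟨m, by rw [h5]⟩
    · exact absurd (inj_lt m h.cl (h.kz m) h1 hyZ)
        (hμ.1.2.2 _ ((π.hat_mem_hat (h.kz m) hyZ).2 h5))

theorem next_unique {μ κ κ' : ZFSet.{0}} (h1 : IsNextCard (SS.Ms π) μ κ)
    (h2 : IsNextCard (SS.Ms π) μ κ') : κ = κ' := by
  rcases h1.1.2.1.mem_trichotomous h2.1.2.1 with h3 | h3 | h3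
  · rcases h2.2.2 κ h3 h1.1 with h4 | h4
    · exact absurd h4 (ZFSet.mem_asymm h1.2.1)
    · exact absurd h1.2.1 (h4 ▸ ZFSet.mem_irrefl _)
  · exact h3
  · rcases h1.2.2 κ' h3 h2.1 with h4 | h4
    · exact absurd h4 (ZFSet.mem_asymm h2.2.1)
    · exact absurd h2.2.1 (h4 ▸ ZFSet.mem_irrefl _)

theorem next_Kz (n : ℕ) : IsNextCard (SS.Ms π) (π.hat (Kz n)) (π.hat (Kz (n + 1))) := by
  refine ⟨h.card_Kz _, (π.hat_mem_hat (h.kz _) (h.kz _)).2 (Kz_mem_Kz.2 (Nat.lt_succ_self n)), ?_⟩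
  intro ν hν hc
  have ho := hc.2.1
  rcases ho.mem_trichotomous (h.hat_ord (Kz_ord n)) with h1 | h1 | h1
  · exact Or.inl h1
  · exact Or.inr h1
  · exfalso
    obtain ⟨y, hy, hyZ, rfl⟩ := π.mem_hat.1 hν
    exact hc.2.2 _ h1 (inj_lt n h.cl (h.kz n) hy hyZ)

theorem ud_preg : UD fun M (v : Fin 2 → ZFSet.{0}) => ∃ ρ ∈ v 0, v 1 ∈ ρ ∧ PReg M ρ := by
  unfold PReg Fnl Bdd
  (repeat' first
    | assumption
    | exact UF.proj _
    | exact UD.prop _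
    | apply UD.not | apply UD.and | apply UD.or | apply UD.imp | apply UD.iff
    | apply UD.bex | apply UD.ball | apply UD.ex | apply UD.all
    | apply UD.eq | apply UD.mem | apply UF.pair)

/-- The successor cardinals of the model are regular. -/
theorem succ_reg {μ κ : ZFSet.{0}} (hμ : IsInfCard (SS.Ms π) μ) (hκ : IsNextCard (SS.Ms π) μ κ) :
    IsReg (SS.Ms π) κ := by
  by_cases hL : μ ∈ π.hat Lz
  · obtain ⟨n, rfl⟩ := h.eq_Kz hμ hL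
    rw [h.next_unique hκ (h.next_Kz n)]
    exact h.reg_Kz _
  · obtain ⟨α, hαZ, rfl⟩ := h.ord_form hμ.1.1 hμ.1.2.1
    obtain ⟨ν, hνZ, rfl⟩ := h.ord_form hκ.1.1 hκ.1.2.1
    have hαL : lam.ord ≤ α := by
      by_contra h1
      exact hL ((π.hat_mem_hat hαZ h.lz).2
        (Ordinal.toZFSet_mem_toZFSet_iff.2 (not_le.1 h1)))
    have hc : lam ≤ α.card := Cardinal.ord_le.1 hαL
    have h1 : (Order.succ α.card).ord ≤ ν := by
      by_contra h2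
      have h3 : ν.card ≤ α.card := Order.lt_succ_iff.1 (Cardinal.lt_ord.1 (not_le.1 h2))
      have h4 : ν.toZFSet.card ≤ α.toZFSet.card := by
        rwa [Ordinal.card_toZFSet, Ordinal.card_toZFSet]
      obtain ⟨f, hf, hi⟩ := π.exists_inj_V hνZ hαZ (exists_isInj h4)
      exact hκ.1.2.2 _ hκ.2.1 ⟨f, h.V_sub hf, hi⟩
    have h2 : ν = (Order.succ α.card).ord := by
      by_contra h3
      have h4 : (Order.succ α.card).ord < ν := lt_of_le_of_ne h1 (Ne.symm h3)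
      have h5 : ∃ ρ ∈ π.hat ν.toZFSet, π.hat α.toZFSet ∈ ρ ∧ PReg (SS.Ms π) ρ := by
        refine frc_all (ud_preg h) (x := ![check ν.toZFSet, check α.toZFSet]) ?_ ?_ π h.cl ?_
        · intro i
          fin_cases i
          · exact SS.hs_check _
          · exact SS.hs_check _
        · intro q
          refine ⟨q, le_rfl, {check (Order.succ α.card).ord.toZFSet}, Set.countable_singleton _, ?_⟩
          rintro ρ hcl hN hA -
          have h6 : ν.toZFSet ∈ ρ.Z := hN 0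
          have h7 : α.toZFSet ∈ ρ.Z := hN 1
          have h8 : (Order.succ α.card).ord.toZFSet ∈ ρ.Z := hA rfl
          refine ⟨ρ.hat (Order.succ α.card).ord.toZFSet, (ρ.hat_mem_hat h8 h6).2
            (Ordinal.toZFSet_mem_toZFSet_iff.2 h4), (ρ.hat_mem_hat h7 h8).2
            (Ordinal.toZFSet_mem_toZFSet_iff.2 (Cardinal.lt_ord.2 (Order.lt_succ _))),
            reg_hi _ hc hcl h8⟩
        · intro i
          fin_cases i
          · exact hνZ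
          · exact hαZ
      obtain ⟨ρ, hρ, h6, h7⟩ := h5
      have hρM := h.zf.trans _ hκ.1.1 _ hρ
      rcases hκ.2.2 ρ hρ (isCard_of_preg h.zf hρM (hκ.1.2.1.mem hρ) h7) with h8 | h8
      · exact ZFSet.mem_asymm h6 h8
      · rw [h8] at h6
        exact ZFSet.mem_irrefl _ h6
    subst h2
    refine ⟨⟨hκ.1, ?_⟩, bd_of_preg (reg_hi _ hc h.cl hνZ)⟩
    exact fun z hz => hκ.1.2.1.mem_trans (hμ.2 hz) hκ.2.1

/-- Each `κ n` carries a uniform ultrafilter. -/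
theorem carries_Kz (n : ℕ) : Carries (SS.Ms π) (π.hat (Kz n)) := by
  refine carries_of (e := π.val (En n)) h.zf (h.hatM (h.kz n)) (h.hat_ord (Kz_ord n)) ?_
    (Sys.mem_Ms (h.en n) (hs_En n)) ?_ ?_ ?_ (h.reg_Kz n).2
  · refine ⟨∅, (h.inf_Kz n).2 ?_⟩
    exact mem_omega_iff.2 ⟨0, rfl⟩
  · intro p hp
    obtain ⟨s, h1, h2, h3⟩ := enum_fun hp
    exact ⟨_, _, h3, π.hat_isOrdinal (ZFSet.isOrdinal_toZFSet _)⟩
  · exact fun a X Y hX hY => enum_uniq hX hY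
  · exact fun X hX hXK => enum_spec n h.cl (h.en n) (h.kz n) hX hXK

/-- The cardinal `ℵ α` of the model. -/
theorem aleph_of {α κ : ZFSet.{0}} (hα : α ∈ π.Z) (hκ : κ ∈ π.Z)
    (hc : IsInfCard (SS.Ms π) (π.hat κ)) (hS : Sα α ∈ π.Z) (hF : Fα α ∈ π.Z) (hκL : κ ⊆ Lz)
    (h1 : ∀ x ∈ α, ∃ i, x = nat i) (h2 : ∀ i, nat i ∈ α ↔ Kz i ∈ κ) :
    IsAleph (SS.Ms π) (π.hat α) (π.hat κ) := by
  have hSm : ∀ {z}, z ∈ π.hat (Sα α) ↔ ∃ i, nat i ∈ α ∧ z = π.hat (Kz i) := by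
    intro z
    rw [π.mem_hat]
    constructor
    · rintro ⟨y, hy, -, rfl⟩
      obtain ⟨i, rfl⟩ := ZFSet.mem_range.1 hy
      exact ⟨i.1, i.2, rfl⟩
    · rintro ⟨i, hi, rfl⟩
      exact ⟨Kz i, ZFSet.mem_range.2 ⟨⟨i, hi⟩, rfl⟩, h.kz i, rfl⟩
  have hFm : ∀ {z}, z ∈ π.hat (Fα α) ↔ ∃ i, nat i ∈ α ∧ z = pair (nat i) (π.hat (Kz i)) := by
    intro z
    rw [π.mem_hat]
    constructor
    · rintro ⟨y, hy, -, rfl⟩
      obtain ⟨i, rfl⟩ := ZFSet.mem_range.1 hy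
      refine ⟨i.1, i.2, ?_⟩
      rw [π.hat_pair (π.nat_Z _) (h.kz _), π.hat_nat]
    · rintro ⟨i, hi, rfl⟩
      refine ⟨pair (nat i) (Kz i), ZFSet.mem_range.2 ⟨⟨i, hi⟩, rfl⟩,
        π.pair_mem_Z (π.nat_Z _) (h.kz _), ?_⟩
      rw [π.hat_pair (π.nat_Z _) (h.kz _), π.hat_nat]
  have hinj : ∀ {i j}, π.hat (Kz i) = π.hat (Kz j) → i = j := fun hij =>
    Kz_inj ((π.hat_inj (h.kz _) (h.kz _)).1 hij)
  have hαm : ∀ {z}, z ∈ π.hat α ↔ ∃ i, nat i ∈ α ∧ z = nat i := by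
    intro z
    rw [π.mem_hat]
    constructor
    · rintro ⟨y, hy, -, rfl⟩
      obtain ⟨i, rfl⟩ := h1 y hy
      exact ⟨i, hy, π.hat_nat i⟩
    · rintro ⟨i, hi, rfl⟩
      exact ⟨nat i, hi, π.nat_Z i, π.hat_nat i⟩
  refine ⟨hc, π.hat (Sα α), h.hatM hS, fun ν => ?_, π.hat (Fα α), h.hatM hF,
    ⟨⟨⟨fun z hz => ?_, fun z hz => ?_⟩, fun a b c ha hb => ?_⟩, fun b hb => ?_⟩, ?_⟩
  · rw [hSm]
    constructor
    · rintro ⟨i, hi, rfl⟩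
      exact ⟨(π.hat_mem_hat (h.kz i) hκ).2 ((h2 i).1 hi), h.inf_Kz i⟩
    · rintro ⟨hν, hνc⟩
      obtain ⟨i, rfl⟩ := h.eq_Kz hνc (π.hat_subset hκL hν)
      exact ⟨i, (h2 i).2 ((π.hat_mem_hat (h.kz i) hκ).1 hν), rfl⟩
  · obtain ⟨i, hi, rfl⟩ := hFm.1 hz
    exact ZFSet.pair_mem_prod.2 ⟨hαm.2 ⟨i, hi, rfl⟩, hSm.2 ⟨i, hi, rfl⟩⟩
  · obtain ⟨i, hi, rfl⟩ := hαm.1 hz
    refine ⟨π.hat (Kz i), hFm.2 ⟨i, hi, rfl⟩, fun w hw => ?_⟩
    obtain ⟨j, hj, h3⟩ := hFm.1 hw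
    obtain ⟨h4, rfl⟩ := ZFSet.pair_inj.1 h3
    rw [nat_injective h4]
  · obtain ⟨i, hi, h3⟩ := hFm.1 ha
    obtain ⟨j, hj, h4⟩ := hFm.1 hb
    obtain ⟨rfl, rfl⟩ := ZFSet.pair_inj.1 h3
    obtain ⟨rfl, h5⟩ := ZFSet.pair_inj.1 h4
    rw [hinj h5]
  · obtain ⟨i, hi, rfl⟩ := hSm.1 hb
    exact ⟨nat i, hαm.2 ⟨i, hi, rfl⟩, hFm.2 ⟨i, hi, rfl⟩⟩
  · intro β γ ν ρ hν hρ
    obtain ⟨i, hi, h3⟩ := hFm.1 hν
    obtain ⟨j, hj, h4⟩ := hFm.1 hρ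
    obtain ⟨rfl, rfl⟩ := ZFSet.pair_inj.1 h3
    obtain ⟨rfl, rfl⟩ := ZFSet.pair_inj.1 h4
    rw [nat_mem_nat, π.hat_mem_hat (h.kz _) (h.kz _), Kz_mem_Kz]

theorem aleph_Kz (n : ℕ) : IsAleph (SS.Ms π) (nat n) (π.hat (Kz n)) := by
  have h1 := h.aleph_of (π.nat_Z n) (h.kz n) (h.inf_Kz n) (h.sn n).1 (h.sn n).2 (Kz_sub_Lz n)
    (fun x hx => by
      obtain ⟨i, -, rfl⟩ := mem_nat_iff.1 hx
      exact ⟨i, rfl⟩) (fun i => by rw [nat_mem_nat, Kz_mem_Kz])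
  rwa [π.hat_nat] at h1

theorem aleph_Lz : IsAleph (SS.Ms π) ZFSet.omega (π.hat Lz) := by
  have h1 := h.aleph_of π.omega_Z h.lz h.inf_Lz h.so.1 h.so.2 (fun _ hz => hz)
    (fun x hx => mem_omega_iff.1 hx) (fun i =>
      iff_of_true (mem_omega_iff.2 ⟨i, rfl⟩) (Kz_mem_Lz i))
  rwa [π.hat_omega] at h1

/-- The cardinal `λ` is singular in the model. -/
theorem not_reg_Lz : ¬ IsReg (SS.Ms π) (π.hat Lz) := by
  rintro ⟨-, h1⟩
  have hω : ZFSet.omega ∈ π.hat Lz := by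
    rw [← π.hat_omega]
    refine (π.hat_mem_hat π.omega_Z h.lz).2 ?_
    rw [← Kz_zero]
    exact Kz_mem_Lz 0
  have hFm : ∀ i, pair (nat i) (π.hat (Kz i)) ∈ π.hat (Fα ZFSet.omega) := by
    intro i
    have h2 := (π.hat_mem_hat (π.pair_mem_Z (π.nat_Z i) (h.kz i)) h.so.2).2
      (ZFSet.mem_range.2 ⟨⟨i, mem_omega_iff.2 ⟨i, rfl⟩⟩, rfl⟩)
    rwa [π.hat_pair (π.nat_Z _) (h.kz _), π.hat_nat] at h2
  obtain ⟨β, hβ, h3⟩ := h1 ZFSet.omega hω (π.hat (Fα ZFSet.omega)) (h.hatM h.so.2) (by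
    refine ⟨fun z hz => ?_, fun z hz => ?_⟩
    · obtain ⟨y, hy, -, rfl⟩ := π.mem_hat.1 hz
      obtain ⟨i, rfl⟩ := ZFSet.mem_range.1 hy
      rw [π.hat_pair (π.nat_Z _) (h.kz _), π.hat_nat]
      exact ZFSet.pair_mem_prod.2 ⟨i.2, (π.hat_mem_hat (h.kz _) h.lz).2 (Kz_mem_Lz _)⟩
    · obtain ⟨i, rfl⟩ := mem_omega_iff.1 hz
      refine ⟨_, hFm i, fun w hw => ?_⟩
      obtain ⟨y, hy, -, hyw⟩ := π.mem_hat.1 hw
      obtain ⟨j, rfl⟩ := ZFSet.mem_range.1 hy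
      rw [π.hat_pair (π.nat_Z _) (h.kz _), π.hat_nat] at hyw
      obtain ⟨h4, rfl⟩ := ZFSet.pair_inj.1 hyw
      rw [nat_injective h4])
  obtain ⟨y, hy, hyZ, rfl⟩ := π.mem_hat.1 hβ
  obtain ⟨α, hα, rfl⟩ := Ordinal.mem_toZFSet_iff.1 hy
  obtain ⟨n, hn⟩ := exists_kap_of_lt (Cardinal.lt_ord.1 hα)
  have h4 : α.toZFSet ∈ Kz n := Ordinal.toZFSet_mem_toZFSet_iff.2 (Cardinal.lt_ord.2 hn)
  exact ZFSet.mem_asymm ((π.hat_mem_hat hyZ (h.kz n)).2 h4) (h3 _ _ (hFm n))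

end IsMod

end Pool.Agent.Q207.UL
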