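import Pool.Agent.Q207.UL.Col

/-!
# The subsets of `κ n` in the models
-/

set_option autoImplicit false
set_option linter.unusedSectionVars false
set_option linter.unreachableTactic false
set_option linter.unusedTactic false

namespace Pool.Agent.Q207.UL

open Pool.Agent.W868 Pool.Agent.W868.PName Pool.Agent.Q211.SY
open ZFSet (pair)
open Cardinal Cnd

/-- The conditions that live on the levels at most `n`. -/
abbrev LowC (n : ℕ) : Type := {r : Cnd // ∀ m, n < m → ∀ i, r.f m i = none}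

/-- The codes of names for subsets of `κ n`. -/
abbrev TT (n : ℕ) : Type := K n → Set (LowC n)

/-- The name for a subset of `κ n`. -/
noncomputable def ev {n : ℕ} (s : TT n) : PName Cnd :=
  PName.mk (Σ ξ : K n, s ξ) (fun t => check (oz t.1)) (fun t => t.2.1.1)

/-- The name for the enumeration of the subsets of `κ n`. -/
noncomputable def En (n : ℕ) : PName Cnd :=
  PName.mk (TT n) (fun s => opN (check (cd s)) (ev s)) (fun _ => ⊤)

theorem el_ev {n : ℕ} {s : TT n} {z : PName Cnd} {c : Cnd} :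
    El (ev s) z c ↔ ∃ (ξ : K n) (r : LowC n), r ∈ s ξ ∧ z = check (oz ξ) ∧ c = r.1 := by
  rw [ev, el_mk]
  constructor
  · rintro ⟨⟨ξ, r, hr⟩, rfl, rfl⟩
    exact ⟨ξ, r, hr, rfl, rfl⟩
  · rintro ⟨ξ, r, hr, rfl, rfl⟩
    exact ⟨⟨ξ, r, hr⟩, rfl, rfl⟩

theorem el_En {n : ℕ} {z : PName Cnd} {c : Cnd} :
    El (En n) z c ↔ ∃ s : TT n, z = opN (check (cd s)) (ev s) ∧ c = ⊤ := by
  rw [En, el_mk]
  constructor
  · rintro ⟨s, rfl, rfl⟩
    exact ⟨s, rfl, rfl⟩
  · rintro ⟨s, rfl, rfl⟩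
    exact ⟨s, rfl, rfl⟩

theorem ap_low {n : ℕ} (r : LowC n) {g : G} (hg : g ∈ Hs n) : ap g r.1 = r.1 := by
  refine ext' fun m i => ?_
  rw [ap_f]
  by_cases hm : m ≤ n
  · rw [hg m hm]
    exact Option.map_id_apply
  · rw [r.2 m (not_le.1 hm) i]
    rfl

theorem ax_ev {n : ℕ} (s : TT n) {g : G} (hg : g ∈ Hs n) : ax g (ev s) = ev s := by
  unfold ax ev
  rw [act]
  congr 1
  · funext t
    exact ax_check _ _
  · funext t
    exact ap_low _ hg

theorem ax_En {n : ℕ} {g : G} (hg : g ∈ Hs n) : ax g (En n) = En n := by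
  unfold ax En
  rw [act]
  congr 1
  funext s
  change ax g (opN _ _) = _
  rw [ax_opN, ax_check, ax_ev s hg]

theorem hs_ev {n : ℕ} (s : TT n) : SS.HS (ev s) := by
  refine SS.hs_iff.2 ⟨sym_iff.2 ⟨n, fun g hg p => ?_⟩, fun z c hz => ?_⟩
  · change Feq (ax g (ev s)) _ _
    rw [ax_ev s hg]
    exact Feq.refl _ _
  · obtain ⟨ξ, r, -, rfl, -⟩ := el_ev.1 hz
    exact SS.hs_check _

theorem hs_En (n : ℕ) : SS.HS (En n) := by
  refine SS.hs_iff.2 ⟨sym_iff.2 ⟨n, fun g hg p => ?_⟩, fun z c hz => ?_⟩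
  · change Feq (ax g (En n)) _ _
    rw [ax_En hg]
    exact Feq.refl _ _
  · obtain ⟨s, rfl, -⟩ := el_En.1 hz
    exact SS.hs_opN (SS.hs_check _) (hs_ev s)

/-- The decisions about membership of `a`. -/
def DM (x : PName Cnd) (a : ZFSet.{0}) : Set Cnd :=
  {t | Fmem (check a) x t ∨ ∀ t' ≤ t, ¬ Fmem (check a) x t'}

theorem DM_down {x : PName Cnd} {a : ZFSet.{0}} : ∀ q ∈ DM x a, ∀ r ≤ q, r ∈ DM x a := by
  rintro q (h | h) r hr
  · exact Or.inl (h.mono hr)
  · exact Or.inr fun t ht => h t (ht.trans hr)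

theorem DM_dense {x : PName Cnd} {a : ZFSet.{0}} (q : Cnd) : ∃ r ≤ q, r ∈ DM x a := by
  by_cases h : ∃ r ≤ q, Fmem (check a) x r
  · obtain ⟨r, hr, h1⟩ := h
    exact ⟨r, hr, Or.inl h1⟩
  · push Not at h
    exact ⟨q, le_rfl, Or.inr h⟩

theorem mrg_low_le {n : ℕ} {r : LowC n} {q t : Cnd} (h1 : t ≤ r.1) (h2 : t ≤ q) :
    t ≤ mrg n r.1 q := by
  intro m i e he
  by_cases hm : m ≤ n
  · rw [mrg_lo hm] at he
    exact h1 m i e he
  · rw [mrg_hi (not_le.1 hm)] at he
    exact h2 m i e he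

theorem le_low {n : ℕ} {r : LowC n} {q t : Cnd} (h : t ≤ mrg n r.1 q) : t ≤ r.1 := by
  intro m i e he
  by_cases hm : m ≤ n
  · refine h m i e ?_
    rwa [mrg_lo hm]
  · rw [r.2 m (not_le.1 hm) i] at he
    cases he

theorem ud_sub : UD fun _ (v : Fin 2 → ZFSet.{0}) => v 0 ⊆ v 1 :=
  UD.subset (UF.proj _) (UF.proj _)

/-- Every subset of `κ n` in a model is enumerated. -/
theorem enum_spec (n : ℕ) {π : Pkg Cnd} (hcl : SS.Cld π) (hE : En n ∈ π.N) (hK : Kz n ∈ π.Z)
    {X : ZFSet.{0}} (hX : X ∈ SS.Ms π) (hXK : X ⊆ π.hat (Kz n)) :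
    ∃ a ∈ SS.Ms π, pair a X ∈ π.val (En n) := by
  obtain ⟨x, ⟨hxN, hx⟩, rfl⟩ := hX
  have hud : UD fun M (v : Fin 3 → ZFSet.{0}) => v 0 ⊆ v 1 → ∃ a ∈ M, pair a (v 0) ∈ v 2 := by
    (repeat' first
      | assumption
      | exact UF.proj _
      | exact UF.om
      | exact UD.prop _
      | apply UD.not | apply UD.and | apply UD.or | apply UD.imp | apply UD.iff
      | apply UD.bex | apply UD.ball | apply UD.ex | apply UD.all | apply UD.subset
      | apply UD.eq | apply UD.mem | apply UF.pair)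
  have hud2 : UD fun _ (v : Fin 3 → ZFSet.{0}) => v 0 ∈ v 1 ↔ v 0 ∈ v 2 := by
    (repeat' first
      | assumption
      | exact UF.proj _
      | exact UF.om
      | exact UD.prop _
      | apply UD.not | apply UD.and | apply UD.or | apply UD.imp | apply UD.iff
      | apply UD.bex | apply UD.ball | apply UD.ex | apply UD.all | apply UD.subset
      | apply UD.eq | apply UD.mem | apply UF.pair)
  refine frc_all hud (x := ![x, check (Kz n), En n]) ?_ ?_ π hcl ?_ hXK
  · intro i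
    fin_cases i
    · exact hx
    · exact SS.hs_check _
    · exact hs_En n
  · intro q
    have hx2 : ∀ i, SS.HS ((![x, check (Kz n)] : Fin 2 → PName Cnd) i) := by
      intro i
      fin_cases i
      · exact hx
      · exact SS.hs_check _
    obtain ⟨q', hq', h1 | h1⟩ := Sys.frc_dec (h := ud_sub) hx2 q
    · obtain ⟨s, hs, A, -, hA, h2⟩ := fusion n q' (Ξ := K n)
        ((mk_K n).le.trans (Cardinal.cantor _).le) (fun ξ => DM x (oz ξ)) (fun ξ => DM_down)
        (fun ξ q _ => DM_dense q)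
      let sx : TT n := fun ξ => {r | r.1 ∈ A ∧ Fmem (check (oz ξ)) x (mrg n r.1 s)}
      -- the value is decided for each element
      have h3 : ∀ ξ : K n, SS.Frc hud2 ![check (oz ξ), x, ev sx] s := by
        intro ξ
        have hx3 : ∀ i, SS.HS ((![check (oz ξ), x, ev sx] : Fin 3 → PName Cnd) i) := by
          intro i
          fin_cases i
          · exact SS.hs_check _
          · exact hx
          · exact hs_ev sx
        refine Sys.frc_dense fun t ht => ?_
        obtain ⟨r, hr, hrD, t', ht', ht2⟩ := h2 ξ t ht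
        refine ⟨t', ht', frc_of hx3 (A := ∅) Set.countable_empty ?_⟩
        rintro π hcl hN - ⟨m, hm⟩
        have hξ : (check (oz ξ) : PName Cnd) ∈ π.N := hN 0
        have hxN : x ∈ π.N := hN 1
        have hev : ev sx ∈ π.N := hN 2
        change π.val (check (oz ξ)) ∈ π.val x ↔ π.val (check (oz ξ)) ∈ π.val (ev sx)
        have hback : π.val (check (oz ξ)) ∈ π.val (ev sx) → π.val (check (oz ξ)) ∈ π.val x := by
          intro h4
          obtain ⟨w, hw, c, hc, ⟨k, hk⟩, he⟩ := π.mem_val.1 h4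
          obtain ⟨ξ', r', ⟨hr1, hr2⟩, rfl, rfl⟩ := el_ev.1 hc
          have h5 : oz ξ' = oz ξ := (π.hat_inj hw hξ).1 he
          obtain rfl := oz_inj h5
          refine (π.val_mem_iff hξ hxN).2 ⟨max k m, hr2.mono (mrg_low_le ?_ ?_)⟩
          · exact (π.g_le_left k m).trans hk
          · exact ((π.g_le_right k m).trans hm).trans (ht'.trans ht)
        refine ⟨fun h4 => ?_, hback⟩
        rcases hrD with h5 | h5
        · refine π.val_mem_val hξ (el_ev.2 ⟨ξ, ⟨r, (hA r hr).1⟩, ⟨hr, h5⟩, rfl, rfl⟩) (n := m) ?_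
          exact hm.trans (le_low (r := ⟨r, (hA r hr).1⟩) ht2)
        · obtain ⟨k, hk⟩ := (π.val_mem_iff hξ hxN).1 h4
          exact absurd (Fmem.mono hk (π.g_le_left k m))
            (h5 _ ((π.g_le_right k m).trans (hm.trans ht2)))
      refine ⟨s, hs.1.trans hq', {check (cd sx), ev sx}, (Set.toFinite _).countable, ?_⟩
      rintro π hcl hN hA' ⟨m, hm⟩ -
      have hxN : x ∈ π.N := hN 0
      have hK : Kz n ∈ π.Z := hN 1
      have hE : En n ∈ π.N := hN 2
      have hcd : (check (cd sx) : PName Cnd) ∈ π.N := hA' (Or.inl rfl)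
      have hev : ev sx ∈ π.N := hA' (Or.inr rfl)
      change ∃ a ∈ SS.Ms π, pair a (π.val x) ∈ π.val (En n)
      have h4 : π.val x ⊆ π.hat (Kz n) := by
        refine (Sys.frc_sem hx2).1 h1 π hcl ?_ ⟨m, hm.trans hs.1⟩
        intro i
        fin_cases i
        · exact hxN
        · exact hK
      have h5 : π.val x = π.val (ev sx) := by
        have h6 : ∀ ξ : K n, oz ξ ∈ π.Z →
            (π.hat (oz ξ) ∈ π.val x ↔ π.hat (oz ξ) ∈ π.val (ev sx)) := by
          intro ξ hξ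
          have hx3 : ∀ i, SS.HS ((![check (oz ξ), x, ev sx] : Fin 3 → PName Cnd) i) := by
            intro i
            fin_cases i
            · exact SS.hs_check _
            · exact hx
            · exact hs_ev sx
          refine (Sys.frc_sem hx3).1 (h3 ξ) π hcl ?_ ⟨m, hm⟩
          intro i
          fin_cases i
          · exact hξ
          · exact hxN
          · exact hev
        ext z
        constructor
        · intro hz
          obtain ⟨y, hy, hyZ, rfl⟩ := π.mem_hat.1 (h4 hz)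
          obtain ⟨ξ, rfl⟩ := mem_Kz.1 hy
          exact (h6 ξ hyZ).1 hz
        · intro hz
          obtain ⟨w, hw, c, hc, -, rfl⟩ := π.mem_val.1 hz
          obtain ⟨ξ, r, -, rfl, -⟩ := el_ev.1 hc
          exact (h6 ξ hw).2 hz
      refine ⟨π.hat (cd sx), Sys.mem_Ms hcd (SS.hs_check _), ?_⟩
      rw [h5]
      have h7 := π.val_mem_val (x := En n) (π.opN_mem hcd hev) (el_En.2 ⟨sx, rfl, rfl⟩) (n := 0)
        le_top
      rw [π.val_opN hcd hev] at h7
      exact h7
    · refine ⟨q', hq', ∅, Set.countable_empty, ?_⟩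
      intro π hcl hN _ hm h2
      have h3 : ∀ i, (![x, check (Kz n)] : Fin 2 → PName Cnd) i ∈ π.N := by
        intro i
        fin_cases i
        · exact hN 0
        · exact hN 1
      exact absurd h2 ((Sys.frc_sem hx2).1 h1 π hcl h3 hm)
  · intro i
    fin_cases i
    · exact hxN
    · exact hK
    · exact hE

/-- The enumeration is a function on ordinals. -/
theorem enum_fun {n : ℕ} {π : Pkg Cnd} {z : ZFSet.{0}} (h : z ∈ π.val (En n)) :
    ∃ s : TT n, cd s ∈ π.Z ∧ ev s ∈ π.N ∧ z = pair (π.hat (cd s)) (π.val (ev s)) := by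
  obtain ⟨w, hw, c, hc, -, rfl⟩ := π.mem_val.1 h
  obtain ⟨s, rfl, -⟩ := el_En.1 hc
  have h1 : cd s ∈ π.Z := π.fst_mem hw
  have h2 : ev s ∈ π.N := π.snd_mem hw
  exact ⟨s, h1, h2, π.val_opN h1 h2⟩

theorem enum_ord {n : ℕ} {π : Pkg Cnd} {a X : ZFSet.{0}} (h : pair a X ∈ π.val (En n)) :
    a.IsOrdinal := by
  obtain ⟨s, h1, h2, h3⟩ := enum_fun h
  obtain ⟨rfl, rfl⟩ := ZFSet.pair_inj.1 h3
  exact π.hat_isOrdinal (ZFSet.isOrdinal_toZFSet _)

theorem enum_uniq {n : ℕ} {π : Pkg Cnd} {a X Y : ZFSet.{0}} (h : pair a X ∈ π.val (En n))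
    (h' : pair a Y ∈ π.val (En n)) : X = Y := by
  obtain ⟨s, h1, h2, h3⟩ := enum_fun h
  obtain ⟨s', h1', h2', h3'⟩ := enum_fun h'
  obtain ⟨rfl, rfl⟩ := ZFSet.pair_inj.1 h3
  obtain ⟨h4, rfl⟩ := ZFSet.pair_inj.1 h3'
  have h5 : s = s' := cd_injective ((π.hat_inj h1 h1').1 h4)
  rw [h5]

end Pool.Agent.Q207.UL
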