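import Pool.Agent.Q207.UL.Sym

/-!
# Regular cardinals of the models
-/

set_option autoImplicit false
set_option linter.unusedSectionVars false
set_option linter.unreachableTactic false
set_option linter.unusedTactic false

namespace Pool.Agent.Q207.UL

open Pool.Agent.W868 Pool.Agent.W868.PName Pool.Agent.Q211.SY
open ZFSet (pair)
open Cardinal Cnd

/-- The relation `f` between `α` and `ν` is a partial function. -/
def Fnl (f α ν : ZFSet.{0}) : Prop :=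
  ∀ a ∈ α, ∀ b ∈ ν, ∀ c ∈ ν, pair a b ∈ f → pair a c ∈ f → b = c

/-- The relation `f` between `α` and `ν` is bounded. -/
def Bdd (f α ν : ZFSet.{0}) : Prop := ∃ β ∈ ν, ∀ a ∈ α, ∀ b ∈ ν, pair a b ∈ f → b ∈ β

/-- All partial functions from elements of `ν` to `ν` are bounded. -/
def PReg (M : Set ZFSet.{0}) (ν : ZFSet.{0}) : Prop :=
  ∀ α ∈ ν, ∀ f ∈ M, Fnl f α ν → Bdd f α ν

theorem ud_fnl : UD fun _ (v : Fin 3 → ZFSet.{0}) => Fnl (v 0) (v 1) (v 2) := by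
  unfold Fnl
  (repeat' first
    | assumption
    | exact UF.proj _
    | exact UF.om
    | exact UD.prop _
    | apply UD.not | apply UD.and | apply UD.or | apply UD.imp | apply UD.iff
    | apply UD.bex | apply UD.ball | apply UD.ex | apply UD.all
    | apply UD.eq | apply UD.mem | apply UF.pair)

theorem ud_bdd : UD fun _ (v : Fin 3 → ZFSet.{0}) => Bdd (v 0) (v 1) (v 2) := by
  unfold Bdd
  (repeat' first
    | assumption
    | exact UF.proj _
    | exact UF.om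
    | exact UD.prop _
    | apply UD.not | apply UD.and | apply UD.or | apply UD.imp | apply UD.iff
    | apply UD.bex | apply UD.ball | apply UD.ex | apply UD.all
    | apply UD.eq | apply UD.mem | apply UF.pair)

/-- The condition `t` forces `(a, b) ∈ x`. -/
def Mb (x : PName Cnd) (a b : ZFSet.{0}) (t : Cnd) : Prop := Fmem (opN (check a) (check b)) x t

theorem Mb.mono {x : PName Cnd} {a b : ZFSet.{0}} {t s : Cnd} (h : Mb x a b t) (hs : s ≤ t) :
    Mb x a b s := Fmem.mono h hs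

theorem mb_iff {π : Pkg Cnd} {x : PName Cnd} (hx : x ∈ π.N) {a b : ZFSet.{0}} (ha : a ∈ π.Z)
    (hb : b ∈ π.Z) : pair (π.hat a) (π.hat b) ∈ π.val x ↔ ∃ k, Mb x a b (π.g k) := by
  have h := π.val_mem_iff (x := opN (check a) (check b)) (y := x) (π.opN_mem ha hb) hx
  rw [π.val_opN ha hb] at h
  exact h

/-- The names for the relation and its domain and codomain. -/
noncomputable def n3 (x : PName Cnd) (A N : ZFSet.{0}) : Fin 3 → PName Cnd :=
  ![x, check A, check N]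

theorem hs_n3 {x : PName Cnd} (hx : SS.HS x) (A N : ZFSet.{0}) : ∀ i, SS.HS (n3 x A N i) := by
  intro i
  fin_cases i
  · exact hx
  · exact SS.hs_check _
  · exact SS.hs_check _

theorem fnl_uniq {x : PName Cnd} (hx : SS.HS x) {A N : ZFSet.{0}} {q t : Cnd}
    (hq : SS.Frc ud_fnl (n3 x A N) q) (ht : t ≤ q) {a b c : ZFSet.{0}} (ha : a ∈ A) (hb : b ∈ N)
    (hc : c ∈ N) (h1 : Mb x a b t) (h2 : Mb x a c t) : b = c := by
  obtain ⟨π, h3, h4, h5, -⟩ := Sys.exists_cld SS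
    ({x, check A, check N, check a, check b, check c} : Set (PName Cnd))
    (Set.toFinite _).countable ∅ Set.countable_empty t
  have hxN : x ∈ π.N := h3 (by simp)
  have hA : A ∈ π.Z := h3 (by simp)
  have hN : N ∈ π.Z := h3 (by simp)
  have haZ : a ∈ π.Z := h3 (by simp)
  have hbZ : b ∈ π.Z := h3 (by simp)
  have hcZ : c ∈ π.Z := h3 (by simp)
  have h6 := (Sys.frc_sem (hs_n3 hx A N)).1 hq π h5 (by
    intro i
    fin_cases i
    · exact hxN
    · exact hA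
    · exact hN) ⟨0, h4.le.trans ht⟩
  have h7 : Fnl (π.val x) (π.hat A) (π.hat N) := h6
  refine (π.hat_inj hbZ hcZ).1 (h7 _ ((π.hat_mem_hat haZ hA).2 ha) _
    ((π.hat_mem_hat hbZ hN).2 hb) _ ((π.hat_mem_hat hcZ hN).2 hc) ?_ ?_)
  · exact (mb_iff hxN haZ hbZ).2 ⟨0, h4 ▸ h1⟩
  · exact (mb_iff hxN haZ hcZ).2 ⟨0, h4 ▸ h2⟩

theorem bd_of {x : PName Cnd} (hx : SS.HS x) {A N : ZFSet.{0}}
    (H : ∀ q, SS.Frc ud_fnl (n3 x A N) q → ∃ s ≤ q, ∃ β ∈ N, ∀ a ∈ A, ∀ b ∈ N, ∀ t ≤ s,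
      Mb x a b t → b ∈ β) :
    ∀ π : Pkg Cnd, SS.Cld π → x ∈ π.N → A ∈ π.Z → N ∈ π.Z →
      Fnl (π.val x) (π.hat A) (π.hat N) → Bdd (π.val x) (π.hat A) (π.hat N) := by
  intro π hcl hxN hA hN
  refine frc_all (ud_fnl.imp ud_bdd) (hs_n3 hx A N) ?_ π hcl ?_
  · intro q
    obtain ⟨q', hq', h1 | h1⟩ := Sys.frc_dec (h := ud_fnl) (hs_n3 hx A N) q
    · obtain ⟨s, hs, β, hβ, h2⟩ := H q' h1
      refine ⟨s, hs.trans hq', {check β}, Set.countable_singleton _, ?_⟩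
      rintro π hcl hxN hβN ⟨m, hm⟩ -
      have hxN' : x ∈ π.N := hxN 0
      have hA' : A ∈ π.Z := hxN 1
      have hN' : N ∈ π.Z := hxN 2
      have hβ' : β ∈ π.Z := hβN rfl
      change Bdd (π.val x) (π.hat A) (π.hat N)
      refine ⟨π.hat β, (π.hat_mem_hat hβ' hN').2 hβ, ?_⟩
      intro a ha b hb hab
      obtain ⟨a, ha', haZ, rfl⟩ := π.mem_hat.1 ha
      obtain ⟨b, hb', hbZ, rfl⟩ := π.mem_hat.1 hb
      obtain ⟨k, hk⟩ := (mb_iff hxN' haZ hbZ).1 hab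
      refine (π.hat_mem_hat hbZ hβ').2 (h2 a ha' b hb' (π.g (max k m))
        ((π.g_le_right k m).trans hm) (hk.mono (π.g_le_left k m)))
    · refine ⟨q', hq', ∅, Set.countable_empty, ?_⟩
      intro π hcl hxN _ hm h2
      exact absurd h2 ((Sys.frc_sem (hs_n3 hx A N)).1 h1 π hcl hxN hm)
  · intro i
    fin_cases i
    · exact hxN
    · exact hA
    · exact hN

/-- The decisions about the value at `a`. -/
def DV (x : PName Cnd) (N a : ZFSet.{0}) : Set Cnd :=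
  {t | (∃ b ∈ N, Mb x a b t) ∨ ∀ t' ≤ t, ∀ b ∈ N, ¬ Mb x a b t'}

theorem DV_down {x : PName Cnd} {N a : ZFSet.{0}} : ∀ q ∈ DV x N a, ∀ r ≤ q, r ∈ DV x N a := by
  rintro q (⟨b, hb, h⟩ | h) r hr
  · exact Or.inl ⟨b, hb, h.mono hr⟩
  · exact Or.inr fun t ht => h t (ht.trans hr)

theorem DV_dense {x : PName Cnd} {N a : ZFSet.{0}} (q : Cnd) : ∃ r ≤ q, r ∈ DV x N a := by
  by_cases h : ∃ r ≤ q, ∃ b ∈ N, Mb x a b r
  · obtain ⟨r, hr, b, hb, h1⟩ := h
    exact ⟨r, hr, Or.inl ⟨b, hb, h1⟩⟩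
  · push Not at h
    exact ⟨q, le_rfl, Or.inr h⟩

theorem Mb.fix {x : PName Cnd} {k : ℕ} (hx : Fx k x) {g : G} (hg : g ∈ Hs k) {a b : ZFSet.{0}}
    {t : Cnd} (h : Mb x a b t) : Mb x a b (ap g t) := by
  have h1 := fmem_act' (e := SS.ac g) h
  change Fmem (ax g (opN (check a) (check b))) (ax g x) (ap g t) at h1
  rw [ax_opN, ax_check, ax_check] at h1
  exact fmem_congr (Feq.refl _ _) (hx g hg _) h1

theorem exists_sup {ι : Type} {ν : Ordinal.{0}} {c : Cardinal.{0}} (hc : c.IsRegular)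
    (hν : ν = c.ord) (hι : #ι < c) (f : ι → Ordinal.{0}) (hf : ∀ i, f i < ν) :
    ∃ β < ν, ∀ i, f i < β := by
  subst hν
  have hl := isSuccLimit_ord hc.aleph0_le
  refine ⟨⨆ i, (f i + 1), ?_, fun i => ?_⟩
  · refine Ordinal.iSup_lt_of_lt_cof ?_ fun i => hl.add_one_lt (hf i)
    rwa [hc.cof_ord]
  · exact (lt_add_one (f i)).trans_le (le_ciSup (f := fun i => f i + 1)
      (Ordinal.bddAbove_of_small) i)

theorem card_elts (α : Ordinal.{0}) : #α.ToType = α.card := by simp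

/-- The cardinals `κ (n + 1)` stay regular. -/
theorem reg_lo (n : ℕ) {π : Pkg Cnd} (hcl : SS.Cld π)
    (hN : (kap (n + 1)).ord.toZFSet ∈ π.Z) : PReg (SS.Ms π) (π.hat (kap (n + 1)).ord.toZFSet) := by
  intro A hA f hf hfn
  obtain ⟨A, hA', hAZ, rfl⟩ := π.mem_hat.1 hA
  obtain ⟨α, hα, rfl⟩ := Ordinal.mem_toZFSet_iff.1 hA'
  obtain ⟨x, ⟨hxN, hx⟩, rfl⟩ := hf
  refine bd_of hx ?_ π hcl hxN hAZ hN hfn
  intro q hq
  classical
  have hΞ : #α.ToType ≤ 2 ^ kap n := by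
    rw [card_elts]
    exact Order.lt_succ_iff.1 (Cardinal.lt_ord.1 hα)
  obtain ⟨s, hs, A, hA, -, h2⟩ := fusion n q hΞ (fun ξ => DV x (kap (n + 1)).ord.toZFSet (oz ξ))
    (fun ξ => DV_down) (fun ξ q _ => DV_dense q)
  -- the possible values
  let F : α.ToType × A → Ordinal.{0} := fun t =>
    if h : ∃ b < (kap (n + 1)).ord, Mb x (oz t.1) b.toZFSet (mrg n t.2.1 s) then h.choose else 0
  have hF : ∀ t, F t < (kap (n + 1)).ord := by
    intro t
    by_cases h : ∃ b < (kap (n + 1)).ord, Mb x (oz t.1) b.toZFSet (mrg n t.2.1 s)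
    · have h3 : F t = h.choose := dif_pos h
      rw [h3]
      exact h.choose_spec.1
    · have h3 : F t = 0 := dif_neg h
      rw [h3]
      exact (kap_reg (n + 1)).ord_pos
  have hcard : #(α.ToType × A) < kap (n + 1) := by
    rw [mk_prod, lift_id, lift_id]
    refine lt_of_le_of_lt ((mul_le_mul' hΞ hA).trans ?_) (pow_lt_kap n)
    rw [mul_eq_self (aleph0_le_pow n)]
  obtain ⟨β, hβ, hβ'⟩ := exists_sup (kap_reg (n + 1)) rfl hcard F hF
  refine ⟨s, hs.1, β.toZFSet, Ordinal.mem_toZFSet_iff.2 ⟨β, hβ, rfl⟩, ?_⟩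
  intro a ha b hb t ht hm
  obtain ⟨ξ, rfl⟩ := mem_oz.1 ha
  obtain ⟨r, hr, hrD, t', ht', ht2⟩ := h2 ξ t ht
  have hbm := hb
  obtain ⟨b, hb', rfl⟩ := Ordinal.mem_toZFSet_iff.1 hb
  rcases hrD with ⟨b', hb1, h3⟩ | h3
  · have h4 : ∃ b < (kap (n + 1)).ord, Mb x (oz ξ) b.toZFSet (mrg n r s) := by
      obtain ⟨b1, hb2, rfl⟩ := Ordinal.mem_toZFSet_iff.1 hb1
      exact ⟨b1, hb2, h3⟩
    have h5 : F (ξ, ⟨r, hr⟩) = h4.choose := dif_pos h4
    have h6 := h4.choose_spec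
    have h7 : b.toZFSet = h4.choose.toZFSet := by
      refine fnl_uniq hx hq (ht'.trans (ht.trans hs.1)) ha hbm
        (Ordinal.mem_toZFSet_iff.2 ⟨_, h6.1, rfl⟩) (hm.mono ht') (h6.2.mono ht2)
    have h8 := Ordinal.toZFSet_injective h7
    rw [h8, ← h5]
    exact Ordinal.toZFSet_mem_toZFSet_iff.2 (hβ' _)
  · exact absurd (hm.mono ht') (h3 t' ht2 _ hbm)

/-- Successor cardinals above `λ` stay regular. -/
theorem reg_hi (c : Cardinal.{0}) (hc : lam ≤ c) {π : Pkg Cnd} (hcl : SS.Cld π)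
    (hN : (Order.succ c).ord.toZFSet ∈ π.Z) :
    PReg (SS.Ms π) (π.hat (Order.succ c).ord.toZFSet) := by
  intro A hA f hf hfn
  obtain ⟨A, hA', hAZ, rfl⟩ := π.mem_hat.1 hA
  obtain ⟨α, hα, rfl⟩ := Ordinal.mem_toZFSet_iff.1 hA'
  obtain ⟨x, ⟨hxN, hx⟩, rfl⟩ := hf
  refine bd_of hx ?_ π hcl hxN hAZ hN hfn
  intro q hq
  classical
  obtain ⟨k, hk⟩ := sym_iff.1 hx.sym
  have hreg : (Order.succ c).IsRegular := isRegular_succ (aleph0_le_lam.trans hc)
  have hα' : #α.ToType ≤ c := by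
    rw [card_elts]
    exact Order.lt_succ_iff.1 (Cardinal.lt_ord.1 hα)
  -- the possible values of one element
  have h1 : ∀ ξ : α.ToType, ∃ T : Type, #T ≤ c ∧ ∃ F : T → Ordinal.{0},
      (∀ t, F t < (Order.succ c).ord) ∧
      ∀ b < (Order.succ c).ord, ∀ t ≤ q, Mb x (oz ξ) b.toZFSet t → ∃ i, F i = b := by
    intro ξ
    obtain ⟨s, hs, A, hA, -, h2⟩ := fusion k q (Ξ := Unit)
      (by
        rw [mk_unit]
        exact one_lt_aleph0.le.trans (aleph0_le_pow k))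
      (fun _ => DV x (Order.succ c).ord.toZFSet (oz ξ)) (fun _ => DV_down)
      (fun _ q _ => DV_dense q)
    let F : A → Ordinal.{0} := fun r =>
      if h : ∃ b < (Order.succ c).ord, Mb x (oz ξ) b.toZFSet (mrg k r.1 s) then h.choose else 0
    refine ⟨A, hA.trans (((pow_lt_kap k).trans (kap_lt_lam _)).le.trans hc), F, ?_, ?_⟩
    · intro t
      by_cases h : ∃ b < (Order.succ c).ord, Mb x (oz ξ) b.toZFSet (mrg k t.1 s)
      · have h3 : F t = h.choose := dif_pos h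
        rw [h3]
        exact h.choose_spec.1
      · have h3 : F t = 0 := dif_neg h
        rw [h3]
        exact hreg.ord_pos
    · intro b hb t ht hm
      have hL : LE k t s := by
        intro m hm i e he
        rw [hs.2 m hm i] at he
        exact ht m i e he
      obtain ⟨g, hg, u, hu1, hu2⟩ := homog hL
      have h3 : Mb x (oz ξ) b.toZFSet u := (hm.fix hk hg).mono hu1
      obtain ⟨r, hr, hrD, u', hu', hu3⟩ := h2 () u hu2
      have hbm : b.toZFSet ∈ (Order.succ c).ord.toZFSet := Ordinal.mem_toZFSet_iff.2 ⟨b, hb, rfl⟩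
      rcases hrD with ⟨b', hb1, h4⟩ | h4
      · have h5 : ∃ b < (Order.succ c).ord, Mb x (oz ξ) b.toZFSet (mrg k r s) := by
          obtain ⟨b1, hb2, rfl⟩ := Ordinal.mem_toZFSet_iff.1 hb1
          exact ⟨b1, hb2, h4⟩
        have h6 : F ⟨r, hr⟩ = h5.choose := dif_pos h5
        have h7 := h5.choose_spec
        have h8 : b.toZFSet = h5.choose.toZFSet := by
          refine fnl_uniq hx hq (hu'.trans (hu2.trans hs.1)) (mem_oz.2 ⟨ξ, rfl⟩) hbm
            (Ordinal.mem_toZFSet_iff.2 ⟨_, h7.1, rfl⟩) (h3.mono hu') (h7.2.mono hu3)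
        exact ⟨⟨r, hr⟩, h6.trans (Ordinal.toZFSet_injective h8).symm⟩
      · exact absurd (h3.mono hu') (h4 u' hu3 _ hbm)
  choose T hT F hF hF' using h1
  have hcard : #(Σ ξ, T ξ) < Order.succ c := by
    rw [mk_sigma, Order.lt_succ_iff]
    refine (sum_le_sum _ (fun _ => c) hT).trans ?_
    rw [sum_const, lift_id, lift_id]
    refine (mul_le_mul' hα' le_rfl).trans ?_
    rw [mul_eq_self (aleph0_le_lam.trans hc)]
  obtain ⟨β, hβ, hβ'⟩ := exists_sup hreg rfl hcard (fun t => F t.1 t.2) fun t => hF t.1 t.2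
  refine ⟨q, le_rfl, β.toZFSet, Ordinal.mem_toZFSet_iff.2 ⟨β, hβ, rfl⟩, ?_⟩
  intro a ha b hb t ht hm
  obtain ⟨ξ, rfl⟩ := mem_oz.1 ha
  obtain ⟨b, hb', rfl⟩ := Ordinal.mem_toZFSet_iff.1 hb
  obtain ⟨i, rfl⟩ := hF' ξ b hb' t ht hm
  exact Ordinal.toZFSet_mem_toZFSet_iff.2 (hβ' ⟨ξ, i⟩)

end Pool.Agent.Q207.UL
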